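import Pool.Agent.U909.CY.Bal

/-!
# Upper bounds of the Turaev-Viro invariants by syllables
-/

set_option autoImplicit false

namespace Pool.Agent.U909.CY

open Finset Filter
open Pool.Agent.H550R3.Jones (br brf)
open Pool.Agent.W707.TV (vh Rh Rh_pos vh_ne br_vh_ne brf_vh_ne)
open Pool.Agent.Y482.CY (sb Nz Fn)
open Pool.Agent.Y482.CW
open Pool.Agent.Y482.CX (jc jc_eq nz_vh inv_br)
open Pool.Agent.Y67.CW (br_le)
open Pool.Agent.Y508.CW (swW_append FW_append FW_zero pres pres_Eg half_norm)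
open Pool.Agent.Y547.CW (Ok_sw comm_word Nn_smul Nn_nonneg Eg_smul)
open Pool.Agent.R807.TQ (Hw syw bd_ev Hw_FL Hw_FW Bd rep_bound lmax fup_gen)
open Pool.Agent.N830.TV (tvd tvd_le odd_of)
open GapVol (lob)
open scoped Real Topology

/-- growth rate of a syllable -/
noncomputable def rt (e : ℕ) : ℝ :=
  if e ≤ 3 then ((e / 2 : ℕ) : ℝ) * (8 * lob (π / 4)) + ((e % 2 : ℕ) : ℝ) * (4 * lob (π / 6))
  else 16 * lob (π / 4) + ((e % 2 : ℕ) : ℝ) * (2 * lob (π / 6))

/-- growth rate of a syllable, equal colours -/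
noncomputable def rk (e : ℕ) : ℝ :=
  if e ≤ 3 then ((e / 2 : ℕ) : ℝ) * (8 * lob (π / 4)) + ((e % 2 : ℕ) : ℝ) * (4 * lob (π / 6))
  else 16 * lob (π / 4)

/-- sum over the syllables -/
noncomputable def sr (f : ℕ → ℝ) (s : List (Letter × ℕ)) : ℝ := (s.map fun p => f p.2).sum

/-- a bound for the powers of the letters, on colours with `Pc` -/
def Pb (Pc : Col → Prop) (ω : Col → ℝ) (f : ℕ → ℝ) (M : ℕ) (η : ℝ) : Prop :=
  ∀ (l : Letter) (e : ℕ) (c : Col) (m : ℕ) (x : Fn), m ≤ 2 * M → Pc c → Hw (vh M) M c m x →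
    ω (swW (List.replicate e l) c) * Nn (vh M) m (FW (List.replicate e l) c (vh M) x) ≤
      Real.exp (M / (2 * π) * f e + η * M) * (ω c * Nn (vh M) m x)

/-- weights which are preserved by half twists -/
structure Wt (ω : Col → ℝ) : Prop where
  pos : ∀ c, 0 < ω c
  hlf : ∀ (k : ℤ) (c : Col), ω (swW (half k) c) = ω c

lemma Wt_one : Wt (fun _ => 1) := ⟨fun _ => one_pos, fun _ _ => rfl⟩

lemma half_mid (b : Bool) : ∀ (n : ℕ) (c : Col),
    (swW (List.replicate n [(false, b), (true, b), (false, b)]).flatten c).2.1 = c.2.1 := by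
  intro n
  induction n with
  | zero => exact fun c => rfl
  | succ n ih =>
    intro c
    rw [List.replicate_succ, List.flatten_cons, swW_append, ih]
    rfl

/-- the balance of the colours -/
noncomputable def om (c : Col) : ℝ := Real.exp (Real.log 2 / 2 * c.2.1)

lemma Wt_om : Wt om := by
  refine ⟨fun _ => Real.exp_pos _, fun k c => ?_⟩
  unfold om half
  rw [half_mid]

lemma small {M : ℕ} {η : ℝ} (hη : 0 < η)
    (hb : Bd (vh M) M (Real.exp (M / (2 * π) * (4 * lob (π / 6)) + η * M))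
      (Real.exp (M / (2 * π) * (8 * lob (π / 4)) + η * M))) {e : ℕ} (he : e ≤ 3) (l : Letter)
    (c : Col) (m : ℕ) (x : Fn) (hm : m ≤ 2 * M) (hx : Hw (vh M) M c m x) :
    Nn (vh M) m (FW (List.replicate e l) c (vh M) x) ≤
      Real.exp (M / (2 * π) * (((e / 2 : ℕ) : ℝ) * (8 * lob (π / 4)) +
        ((e % 2 : ℕ) : ℝ) * (4 * lob (π / 6))) + 2 * η * M) * Nn (vh M) m x := by
  have hv := vh_ne M
  have hNz : Nz (vh M) (2 * M) := by
    intro l hl hl2
    exact br_vh_ne (by exact_mod_cast hl) (by omega)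
  refine (rep_bound hv hNz hb hm l e c x hx).trans ?_
  refine mul_le_mul_of_nonneg_right ?_ (Nn_nonneg _ _ _)
  rw [← Real.exp_nat_mul, ← Real.exp_nat_mul, ← Real.exp_add]
  apply Real.exp_le_exp.2
  have hM : 0 ≤ η * M := by positivity
  interval_cases e <;> norm_num <;> nlinarith

theorem Pb_all {η : ℝ} (hη : 0 < η) : ∀ᶠ M : ℕ in atTop,
    Pb (fun _ => True) (fun _ => 1) rt M (2 * η) := by
  filter_upwards [bd_ev hη, b4_ev hη] with M hb h4
  intro l e c m x hm _ hx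
  rw [one_mul, one_mul]
  have hM : 0 ≤ η * M := by positivity
  have hx' : Hv (vh M) c m x := ⟨hx.2.1, hx.2.2.1, hx.2.2.2⟩
  unfold rt
  by_cases he : e ≤ 3
  · rw [if_pos he]
    exact small hη hb he l c m x hm hx
  · rw [if_neg he]
    obtain ⟨s, t⟩ := l
    rcases Nat.even_or_odd' e with ⟨n, rfl | rfl⟩
    · have h1 := h4.1 s t (2 * n) c m x hx.1 (swW_even s t n c) hm hx'
      refine h1.trans (mul_le_mul_of_nonneg_right (Real.exp_le_exp.2 ?_) (Nn_nonneg _ _ _))
      rw [Nat.mul_mod_right]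
      push_cast
      linarith
    · have h1 := h4.2 s t n c m x hx.1 hm hx'
      refine h1.trans (mul_le_mul_of_nonneg_right (Real.exp_le_exp.2 ?_) (Nn_nonneg _ _ _))
      have e1 : (2 * n + 1) % 2 = 1 := by omega
      rw [e1]
      push_cast
      linarith

/-- equal colours -/
def Eqc (c : Col) : Prop := c.1 = c.2.1 ∧ c.2.1 = c.2.2

lemma Eqc_sw (l : Letter) {c : Col} (h : Eqc c) : sw l c = c := by
  obtain ⟨a, b, d⟩ := c
  obtain ⟨h1, h2⟩ := h
  simp only at h1 h2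
  subst h1 h2
  unfold sw
  split_ifs <;> rfl

lemma Eqc_swW (w : List Letter) {c : Col} (h : Eqc c) : swW w c = c := by
  induction w with
  | nil => rfl
  | cons l w ih =>
    change swW w (sw l c) = c
    rw [Eqc_sw l h, ih]

theorem Pb_eq {η : ℝ} (hη : 0 < η) : ∀ᶠ M : ℕ in atTop, Pb Eqc (fun _ => 1) rk M (2 * η) := by
  filter_upwards [bd_ev hη, b4_ev hη] with M hb h4
  intro l e c m x hm hq hx
  rw [one_mul, one_mul]
  have hM : 0 ≤ η * M := by positivity
  have hx' : Hv (vh M) c m x := ⟨hx.2.1, hx.2.2.1, hx.2.2.2⟩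
  unfold rk
  by_cases he : e ≤ 3
  · rw [if_pos he]
    exact small hη hb he l c m x hm hx
  · rw [if_neg he]
    obtain ⟨s, t⟩ := l
    have h1 := h4.1 s t e c m x hx.1 (Eqc_swW _ hq) hm hx'
    refine h1.trans (mul_le_mul_of_nonneg_right (Real.exp_le_exp.2 ?_) (Nn_nonneg _ _ _))
    linarith

theorem bal_ev {η : ℝ} (hη : 0 < η) : ∀ᶠ M : ℕ in atTop,
    ∀ (s t : Bool) (n : ℕ) (c : Col) (m : ℕ) (x : Fn), Ok M c → m ≤ 2 * M → Hv (vh M) c m x →
      om (sw (s, t) c) * Nn (vh M) m (FW (List.replicate (2 * n + 1) (s, t)) c (vh M) x) ≤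
        Real.exp (M / (2 * π) * (16 * lob (π / 4)) + η * M) * (om c * Nn (vh M) m x) := by
  have hp := Real.pi_pos
  obtain ⟨l4, hl4⟩ : ∃ l4 : ℝ, l4 = lob (π / 4) := ⟨_, rfl⟩
  obtain ⟨δ, hδd⟩ : ∃ δ : ℝ, δ = η / 22 := ⟨_, rfl⟩
  have hδ : 0 < δ := by rw [hδd]; positivity
  filter_upwards [Pool.Agent.W125.TV.brf_asymp δ hδ, poly_exp (4 * l4 / π) (half_pos hη),
    eventually_ge_atTop 1] with M hbrf hP1 hM1
  have hv := vh_ne M
  have hv1 := Pool.Agent.Y812.CY.vh_norm M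
  have hNz : Nz (vh M) (2 * M) := by
    intro l hl hl2
    exact br_vh_ne (by exact_mod_cast hl) (by omega)
  have hR : Rh M = M + 1 / 2 := rfl
  have hMr : (1 : ℝ) ≤ M := by exact_mod_cast hM1
  have hk := kd hbrf
  have he := ke hbrf
  obtain ⟨B, hB⟩ : ∃ B : ℝ, B = Real.exp (Rh M / π * (4 * lob (π / 4)) + 5 * (δ * M)) := ⟨_, rfl⟩
  obtain ⟨D, hD⟩ : ∃ D : ℝ, D = Real.exp (Rh M / π * (2 * lob (π / 4)) + 3 * (δ * M)) := ⟨_, rfl⟩
  rw [← hB] at hk
  rw [← hD] at he
  have hB0 := hk.B0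
  have hD0 := he.D0
  have hs : 1 / √(2 / Rh M) ≤ 2 * M + 1 := by
    have h0 : 0 < 2 / Rh M := by rw [hR]; positivity
    have h1 : 1 / (2 * (M : ℝ) + 1) ≤ √(2 / Rh M) := by
      refine Real.le_sqrt_of_sq_le ?_
      rw [hR]
      have : (2 : ℝ) / (M + 1 / 2) = 4 / (2 * M + 1) := by
        field_simp
        ring
      rw [this, div_pow, one_pow, div_le_div_iff₀ (by positivity) (by positivity)]
      nlinarith
    rw [div_le_iff₀ (Real.sqrt_pos.2 h0)]
    have h2 := mul_le_mul_of_nonneg_left h1 (show 0 ≤ 2 * (M : ℝ) + 1 by positivity)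
    rwa [mul_one_div_cancel (by positivity)] at h2
  have hBD : B * D ^ 2 = Real.exp (M / (2 * π) * (16 * l4) + 4 * l4 / π + 11 * δ * M) := by
    rw [hB, hD, ← Real.exp_nat_mul, ← Real.exp_add, ← hl4, hR]
    congr 1
    push_cast
    field_simp
    ring
  have hδη : 11 * δ * M ≤ η / 2 * M := by
    rw [hδd]
    nlinarith
  intro s t n c m x hc hm hx
  have hm1 : ((m : ℝ) + 1) ^ 2 ≤ (2 * M + 1) ^ 2 := by
    have : (m : ℝ) ≤ 2 * M := by exact_mod_cast hm
    exact pow_le_pow_left₀ (by positivity) (by linarith) 2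
  have h1 := odd_bal hv hv1 hNz hk he s t n hc hm hx
  have hN0 := Nn_nonneg (vh M) m x
  have ho : om (sw (s, t) c) * Real.exp (Real.log 2 / 2 * ((c.2.1 : ℝ) - (sw (s, t) c).2.1)) = om c := by
    unfold om
    rw [← Real.exp_add]
    congr 1
    ring
  have ho1 : 0 < om (sw (s, t) c) := Real.exp_pos _
  have ho2 : 0 < om c := Real.exp_pos _
  calc om (sw (s, t) c) * Nn (vh M) m (FW (List.replicate (2 * n + 1) (s, t)) c (vh M) x)
      ≤ om (sw (s, t) c) * (((m : ℝ) + 1) ^ 2 * (2 * B * D ^ 2 / √(2 / Rh M) *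
        Real.exp (Real.log 2 / 2 * ((c.2.1 : ℝ) - (sw (s, t) c).2.1))) * Nn (vh M) m x) :=
        mul_le_mul_of_nonneg_left h1 ho1.le
    _ = ((m : ℝ) + 1) ^ 2 * (1 / √(2 / Rh M)) * (2 * (B * D ^ 2)) *
        ((om (sw (s, t) c) * Real.exp (Real.log 2 / 2 * ((c.2.1 : ℝ) - (sw (s, t) c).2.1))) *
          Nn (vh M) m x) := by ring
    _ ≤ (2 * M + 1) ^ 2 * (2 * M + 1) * (2 * (B * D ^ 2)) * (om c * Nn (vh M) m x) := by
        rw [ho]
        refine mul_le_mul_of_nonneg_right ?_ (by positivity)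
        refine mul_le_mul_of_nonneg_right ?_ (by positivity)
        exact mul_le_mul hm1 hs (by positivity) (by positivity)
    _ = ((2 * (2 * (M : ℝ) + 1) ^ 3 * Real.exp (4 * l4 / π)) *
        Real.exp (M / (2 * π) * (16 * l4) + 11 * δ * M)) * (om c * Nn (vh M) m x) := by
        rw [hBD, mul_assoc (2 * (2 * (M : ℝ) + 1) ^ 3), ← Real.exp_add]
        have : 4 * l4 / π + (M / (2 * π) * (16 * l4) + 11 * δ * M) =
          M / (2 * π) * (16 * l4) + 4 * l4 / π + 11 * δ * M := by ring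
        rw [this]
        ring
    _ ≤ (Real.exp (η / 2 * M) * Real.exp (M / (2 * π) * (16 * l4) + 11 * δ * M)) *
        (om c * Nn (vh M) m x) := by
        refine mul_le_mul_of_nonneg_right ?_ (by positivity)
        exact mul_le_mul_of_nonneg_right hP1 (Real.exp_pos _).le
    _ ≤ Real.exp (M / (2 * π) * (16 * lob (π / 4)) + η * M) * (om c * Nn (vh M) m x) := by
        refine mul_le_mul_of_nonneg_right ?_ (by positivity)
        rw [← Real.exp_add, ← hl4]
        apply Real.exp_le_exp.2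
        linarith

theorem Pb_bal {η : ℝ} (hη : 0 < η) : ∀ᶠ M : ℕ in atTop,
    Pb (fun _ => True) om (fun _ => 16 * lob (π / 4)) M (2 * η) := by
  filter_upwards [bal_ev hη, b4_ev hη] with M hb h4
  intro l e c m x hm _ hx
  have hM : 0 ≤ η * M := by positivity
  have hx' : Hv (vh M) c m x := ⟨hx.2.1, hx.2.2.1, hx.2.2.2⟩
  have hN0 := Nn_nonneg (vh M) m x
  have ho2 : 0 < om c := Real.exp_pos _
  have hle : Real.exp (M / (2 * π) * (16 * lob (π / 4)) + η * M) ≤
      Real.exp (M / (2 * π) * (16 * lob (π / 4)) + 2 * η * M) := Real.exp_le_exp.2 (by linarith)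
  obtain ⟨s, t⟩ := l
  rcases Nat.even_or_odd' e with ⟨n, rfl | rfl⟩
  · have h1 := h4.1 s t (2 * n) c m x hx.1 (swW_even s t n c) hm hx'
    rw [swW_even]
    calc om c * Nn (vh M) m (FW (List.replicate (2 * n) (s, t)) c (vh M) x)
        ≤ om c * (Real.exp (M / (2 * π) * (16 * lob (π / 4)) + η * M) * Nn (vh M) m x) :=
          mul_le_mul_of_nonneg_left h1 ho2.le
      _ = Real.exp (M / (2 * π) * (16 * lob (π / 4)) + η * M) * (om c * Nn (vh M) m x) := by ring
      _ ≤ _ := mul_le_mul_of_nonneg_right hle (by positivity)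
  · have h1 := hb s t n c m x hx.1 hm hx'
    have hcc : swW (List.replicate (2 * n + 1) (s, t)) c = sw (s, t) c := by
      rw [List.replicate_succ]
      exact swW_even s t n (sw (s, t) c)
    rw [hcc]
    exact h1.trans (mul_le_mul_of_nonneg_right hle (by positivity))

/-- the bound for words of syllables -/
lemma word_bd {Pc : Col → Prop} (hPc : ∀ (l : Letter) (c : Col), Pc c → Pc (sw l c))
    {ω : Col → ℝ} {f : ℕ → ℝ}
    {M : ℕ} {η : ℝ} (h : Pb Pc ω f M η) (s : List (Letter × ℕ)) : ∀ (c : Col) (m : ℕ) (x : Fn),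
    m ≤ 2 * M → Pc c → Hw (vh M) M c m x →
    ω (swW (syw s) c) * Nn (vh M) m (FW (syw s) c (vh M) x) ≤
      Real.exp (M / (2 * π) * sr f s + s.length * (η * M)) * (ω c * Nn (vh M) m x) := by
  have hv := vh_ne M
  have hNz : Nz (vh M) (2 * M) := by
    intro l hl hl2
    exact br_vh_ne (by exact_mod_cast hl) (by omega)
  have hPw : ∀ (w : List Letter) (c : Col), Pc c → Pc (swW w c) := by
    intro w
    induction w with
    | nil => exact fun c h => h
    | cons l w ih => exact fun c h => ih _ (hPc l c h)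
  induction s with
  | nil =>
    intro c m x _ _ _
    simp [syw, sr, FW, swW]
  | cons p s ih =>
    intro c m x hm hp hx
    have e : syw (p :: s) = List.replicate p.2 p.1 ++ syw s := rfl
    rw [e, FW_append, swW_append]
    have h1 := h p.1 p.2 c m x hm hp hx
    refine (ih _ m _ hm (hPw _ _ hp) (Hw_FW hv hNz _ hx)).trans ?_
    calc Real.exp (M / (2 * π) * sr f s + s.length * (η * M)) *
          (ω (swW (List.replicate p.2 p.1) c) *
            Nn (vh M) m (FW (List.replicate p.2 p.1) c (vh M) x))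
        ≤ Real.exp (M / (2 * π) * sr f s + s.length * (η * M)) *
          (Real.exp (M / (2 * π) * f p.2 + η * M) * (ω c * Nn (vh M) m x)) :=
          mul_le_mul_of_nonneg_left h1 (Real.exp_pos _).le
      _ = _ := by
          rw [← mul_assoc, ← Real.exp_add]
          congr 2
          simp only [sr, List.map_cons, List.sum_cons, List.length_cons]
          push_cast
          ring

/-- the eigenvalues of a word, half twists are free -/
theorem eig4 {v : ℂ} (hv : v ≠ 0) (hv1 : ‖v‖ = 1) {K : ℕ} (hN : Nz v (2 * K)) (k : ℤ)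
    (w : List Letter) (C : ℝ) {Pc : Col → Prop} (hPc : ∀ (l : Letter) (c : Col), Pc c → Pc (sw l c))
    {ω : Col → ℝ} (hω : Wt ω)
    (hW : ∀ (c : Col) (m : ℕ) (x : Fn), m ≤ 2 * K → Pc c → Hw v K c m x →
      ω (swW w c) * Nn v m (FW w c v x) ≤ C * (ω c * Nn v m x)) (c : Col) (hc : Ok K c) (hp : Pc c)
    (hsw : swW (half k ++ w) c = c) :
    ∀ (m : ℕ) (x : Fn) (μ : ℂ), Bx c x → Lv m x → x ≠ 0 → FW (half k ++ w) c v x = μ • x →
      ‖μ‖ ≤ C := by
  have hBox : S_BOX := Pool.Agent.Y528.CW.t_BOX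
  have hECP : S_ECP := Pool.Agent.Y858.CW.ecp
  have hECN : S_ECN := Pool.Agent.Y907.CW.t_ECN
  have hPw : ∀ (w : List Letter) (c : Col), Pc c → Pc (swW w c) := by
    intro w
    induction w with
    | nil => exact fun c h => h
    | cons l w ih => exact fun c h => ih _ (hPc l c h)
  have direct : ∀ (m : ℕ) (x : Fn) (μ : ℂ), Bx c x → Lv m x → x ≠ 0 → Eg c v x = 0 →
      FW (half k ++ w) c v x = μ • x → ‖μ‖ ≤ C := by
    intro m x μ hx hl hx0 hE hF
    have hm : m + 1 < 2 * K := by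
      by_contra h
      exact hx0 (Pool.Agent.Y383.CW.t_NOH v hv K c m x (fun l h1 h2 => hN l h1 (by omega)) hc
        (by omega) hx hl hE)
    have hNm : Nz v m := fun l h1 h2 => hN l h1 (by omega)
    have hpos : 0 < Nn v m x := lt_of_le_of_ne (Nn_nonneg v m x)
      (fun h => hx0 (Pool.Agent.Y383.CW.t_FAI v hv c m x hNm hl hE h.symm))
    have hw : Hw v K (swW (half k) c) m (FW (half k) c v x) :=
      Hw_FW hv hN _ ⟨hc, hx, hl, hE⟩
    have h1 := hW _ m _ (by omega) (hPw _ _ hp) hw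
    have h0 : Nn v m (FW (half k) c v x) = Nn v m x :=
      half_norm hBox hECP hECN htg_all hv hv1 hN m (by omega) (decide (0 ≤ k)) k.natAbs c x hc hx
        hl hE
    rw [← FW_append, hF, Nn_smul, h0, ← swW_append, hsw, hω.hlf] at h1
    have h2 : ‖μ‖ * (ω c * Nn v m x) ≤ C * (ω c * Nn v m x) := by
      calc ‖μ‖ * (ω c * Nn v m x) = ω c * (‖μ‖ * Nn v m x) := by ring
        _ ≤ _ := h1
    exact le_of_mul_le_mul_right h2 (mul_pos (hω.pos c) hpos)
  intro m
  induction m with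
  | zero =>
    intro x μ hx hl hx0 hF
    exact direct 0 x μ hx hl hx0 (hBox.2.2.2.2 v c x hl) hF
  | succ m ih =>
    intro x μ hx hl hx0 hF
    by_cases hE : Eg c v x = 0
    · exact direct (m + 1) x μ hx hl hx0 hE hF
    · refine ih (Eg c v x) μ (hBox.2.2.1 v c x hx) (hBox.2.2.2.1 v c m x hl) hE ?_
      rw [comm_word hBox hECP hECN hv hN (half k ++ w) c x hc hx, hsw, hF,
        Pool.Agent.Y547.CW.Eg_smul]

/-- the bound for the tangle -/
theorem tg_le4 {v : ℂ} (hv : v ≠ 0) (hv1 : ‖v‖ = 1) {K : ℕ} (hN : Nz v (2 * K)) (k : ℤ)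
    (w : List Letter) {C : ℝ} (hC0 : 0 ≤ C) {Pc : Col → Prop}
    (hPc : ∀ (l : Letter) (c : Col), Pc c → Pc (sw l c)) {ω : Col → ℝ} (hω : Wt ω)
    (hW : ∀ (c : Col) (m : ℕ) (x : Fn), m ≤ 2 * K → Pc c →
      Hw v K c m x → ω (swW w c) * Nn v m (FW w c v x) ≤ C * (ω c * Nn v m x)) (a : ℕ) (c : Col) (ha : 1 ≤ a)
    (haK : a ≤ K) (hOk : Ok K c) (hp : Pc c) (hsw : swW (half k ++ w) c = c) :
    ‖tg K (half k ++ w) a c v‖ ≤ 3 * K * ((3 * K) ^ 2 * C) := by
  have hBX : S_BOX := Pool.Agent.Y528.CW.t_BOX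
  have hN1 : Nz v K := fun l h1 h2 => hN l h1 (by omega)
  rw [Pool.Agent.Y514.CW.axw v hv K (half k ++ w) a c hN1 ha haK hOk]
  refine (norm_sum_le _ _).trans ?_
  have h1 : ∀ m ∈ range (3 * K),
      ‖v ^ ((c.1 : ℤ) + c.2.1 + c.2.2 - 3 - 2 * a * m) * ta K (half k ++ w) c v m‖ ≤
        (3 * K) ^ 2 * C := by
    intro m hm
    rw [norm_mul, norm_zpow, hv1, _root_.one_zpow, _root_.one_mul,
      Pool.Agent.Y182.CW.t_CNV v hv K hN (half k ++ w) c m hOk hsw]
    refine (Pool.Agent.Y232.CW.t_TRB c m C (FW (half k ++ w) c v) hC0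
      (Pool.Agent.Y67.CW.FW_add v (half k ++ w) c)
      (Pool.Agent.Y67.CW.FW_smul v (half k ++ w) c) (fun x hx => ?_)
      (fun x hx => Pool.Agent.Y67.CW.FW_lv hBX v m (half k ++ w) c x hx)
      (fun x μ h1 h2 h3 h4 => eig4 hv hv1 hN k w C hPc hω hW c hOk hp hsw m x μ h1 h2 h3 h4)).trans ?_
    · have h5 := Pool.Agent.Y67.CW.FW_box hBX v (half k ++ w) c x hx
      rwa [hsw] at h5
    · have h5 : (m : ℝ) + 1 ≤ 3 * K := by
        have h6 := mem_range.1 hm
        have h7 : m + 1 ≤ 3 * K := h6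
        exact_mod_cast h7
      gcongr
  refine (sum_le_sum h1).trans ?_
  rw [sum_const, card_range, nsmul_eq_mul]
  push_cast
  exact le_rfl

/-- the bound for the tangle with the axis -/
theorem upw4 (k : ℤ) (s : List (Letter × ℕ)) {Pc : Col → Prop}
    (hPc : ∀ (l : Letter) (c : Col), Pc c → Pc (sw l c)) {ω : Col → ℝ} (hω : Wt ω) {f : ℕ → ℝ}
    (hf : ∀ η : ℝ, 0 < η → ∀ᶠ M : ℕ in atTop, Pb Pc ω f M (2 * η)) {ε : ℝ} (hε : 0 < ε) :
    ∀ᶠ M : ℕ in atTop, ∀ (a : ℕ) (c : Col), 1 ≤ a → a ≤ M → Ok M c → Pc c →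
      swW (half k ++ syw s) c = c →
      ‖br (vh M) (a : ℤ) * tg M (half k ++ syw s) a c (vh M)‖ ≤
        Real.exp (M / (2 * π) * sr f s + ε * M) := by
  have hp := Real.pi_pos
  have hη : 0 < ε / (4 * (s.length + 1)) := by positivity
  have hpoly : ∀ᶠ M : ℕ in atTop, 54 * (M : ℝ) ^ 3 ≤ Real.exp (ε / 2 * M) := by
    have h1 := (isLittleO_pow_exp_pos_mul_atTop (k := 3) (half_pos hε)).bound
      (c := 1 / 54) (by positivity)
    have h2 := tendsto_natCast_atTop_atTop (R := ℝ) |>.eventually h1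
    filter_upwards [h2] with M hM
    rw [Real.norm_of_nonneg (by positivity), Real.norm_of_nonneg (Real.exp_pos _).le] at hM
    linarith
  filter_upwards [hf _ hη, hpoly] with M hb hP a c ha haM hOk hpc hsw
  have hv := vh_ne M
  have hv1 := Pool.Agent.Y812.CY.vh_norm M
  have hNz : Nz (vh M) (2 * M) := by
    intro l hl hl2
    exact br_vh_ne (by exact_mod_cast hl) (by omega)
  have h3 := tg_le4 hv hv1 hNz k (syw s) (Real.exp_pos _).le hPc hω
    (fun c m x hm h1 h2 => word_bd hPc hb s c m x hm h1 h2) a c ha haM hOk hpc hsw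
  rw [norm_mul]
  have hM0 : (0 : ℝ) ≤ M := Nat.cast_nonneg M
  have h4 : (s.length : ℝ) * (2 * (ε / (4 * (s.length + 1))) * M) ≤ ε / 2 * M := by
    have h5 : (s.length : ℝ) * (2 * (ε / (4 * (s.length + 1)))) ≤ ε / 2 := by
      have e : (s.length : ℝ) * (2 * (ε / (4 * (s.length + 1)))) =
        (s.length : ℝ) * ε / (2 * (s.length + 1)) := by
        field_simp
        ring
      rw [e, div_le_iff₀ (by positivity)]
      nlinarith
    nlinarith
  calc ‖br (vh M) (a : ℤ)‖ * ‖tg M (half k ++ syw s) a c (vh M)‖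
      ≤ 2 * (3 * M * ((3 * M) ^ 2 * Real.exp (M / (2 * π) * sr f s +
          s.length * (2 * (ε / (4 * (s.length + 1))) * M)))) :=
        mul_le_mul (br_le hv1 _) h3 (norm_nonneg _) (by norm_num)
    _ = (54 * (M : ℝ) ^ 3) * Real.exp (M / (2 * π) * sr f s +
          s.length * (2 * (ε / (4 * (s.length + 1))) * M)) := by ring
    _ ≤ Real.exp (ε / 2 * M) * Real.exp (M / (2 * π) * sr f s + ε / 2 * M) := by
        refine mul_le_mul hP (Real.exp_le_exp.2 (by linarith)) (Real.exp_pos _).le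
          (Real.exp_pos _).le
    _ = _ := by
        rw [← Real.exp_add]
        congr 1
        ring

/-- the closed braid without the axis -/
theorem clo4 (k : ℤ) (s : List (Letter × ℕ)) {Pc : Col → Prop}
    (hPc : ∀ (l : Letter) (c : Col), Pc c → Pc (sw l c)) {ω : Col → ℝ} (hω : Wt ω) {f : ℕ → ℝ}
    (hf : ∀ η : ℝ, 0 < η → ∀ᶠ M : ℕ in atTop, Pb Pc ω f M (2 * η)) {ε : ℝ} (hε : 0 < ε) :
    ∀ᶠ M : ℕ in atTop, ∀ c : Col, Ok M c → Pc c → swW (half k ++ syw s) c = c →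
      ‖jc M (half k ++ syw s) c (vh M)‖ ≤ Real.exp (M / (2 * π) * sr f s + ε * M) := by
  filter_upwards [upw4 k s hPc hω hf (half_pos hε), inv_br (ε / 2) (half_pos hε),
    eventually_ge_atTop 2] with M h1 h2 hM c hc hp hw
  have h3 := h1 1 c le_rfl (by omega) hc hp hw
  rw [Nat.cast_one, jc_eq (vh_ne M) M _ c (nz_vh M) (by omega) hc, norm_mul] at h3
  have h4 : ‖jc M (half k ++ syw s) c (vh M)‖ =
      ‖br (vh M) 1‖⁻¹ * (‖br (vh M) 1‖ * ‖jc M (half k ++ syw s) c (vh M)‖) := by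
    rw [← mul_assoc, inv_mul_cancel₀ h2.1.ne', one_mul]
  rw [h4]
  calc ‖br (vh M) 1‖⁻¹ * (‖br (vh M) 1‖ * ‖jc M (half k ++ syw s) c (vh M)‖)
      ≤ Real.exp (ε / 2 * M) * Real.exp (M / (2 * π) * sr f s + ε / 2 * M) :=
        mul_le_mul h2.2 h3 (by positivity) (Real.exp_pos _).le
    _ = _ := by
        rw [← Real.exp_add]
        congr 1
        ring

/-- from the Jones polynomials to the Turaev-Viro invariants, without the axis -/
theorem clo_gen (w : List Letter) (Q : ℝ) (hU : ∀ ε : ℝ, 0 < ε → ∀ᶠ M : ℕ in atTop,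
    ∀ c : Col, Ok M c → swW w c = c → ‖jc M w c (vh M)‖ ≤ Real.exp (M / (2 * π) * Q + ε * M)) {ε : ℝ}
    (hε : 0 < ε) : ∀ᶠ r : ℕ in atTop ⊓ 𝓟 {r : ℕ | Odd r},
      tvd w r ≤ Real.exp (r / (2 * π) * (Q + ε)) := by
  have hp := Real.pi_pos
  refine odd_of (P := fun r => tvd w r ≤ Real.exp (r / (2 * π) * (Q + ε))) ?_
  have hb : 0 < ε / (4 * π) := by positivity
  have h2 := (isLittleO_pow_exp_pos_mul_atTop (k := 3) hb).bound
    (c := Real.exp (Q / (2 * π)) / 16) (by positivity)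
  have h3 : Tendsto (fun M : ℕ => ((2 * M + 1 : ℕ) : ℝ)) atTop atTop := by
    refine tendsto_natCast_atTop_atTop.comp ?_
    exact tendsto_atTop_mono (fun M => by show M ≤ 2 * M + 1; omega) tendsto_id
  filter_upwards [h3.eventually h2, hU (ε / (4 * π)) hb] with M h4 h5
  obtain ⟨r, hr⟩ : ∃ r : ℝ, r = ((2 * M + 1 : ℕ) : ℝ) := ⟨_, rfl⟩
  have hMr : (M : ℝ) = (r - 1) / 2 := by
    rw [hr]
    push_cast
    ring
  have hr1 : 1 ≤ r := by
    rw [hr]
    exact_mod_cast (show 1 ≤ 2 * M + 1 by omega)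
  have h6 := tvd_le w (M := M) (Real.exp_pos _).le (fun c hc hw => h5 c hc hw)
  rw [← hr] at h4 h6 ⊢
  rw [Real.norm_of_nonneg (by positivity), Real.norm_of_nonneg (Real.exp_pos _).le] at h4
  refine h6.trans ?_
  have h7 : 16 * r ^ 3 ≤ Real.exp (Q / (2 * π)) * Real.exp (ε / (4 * π) * r) := by
    have := Real.exp_pos (Q / (2 * π))
    nlinarith
  calc 16 * r ^ 3 * Real.exp (M / (2 * π) * Q + ε / (4 * π) * M) ^ 2
      ≤ (Real.exp (Q / (2 * π)) * Real.exp (ε / (4 * π) * r)) *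
        Real.exp (M / (2 * π) * Q + ε / (4 * π) * M) ^ 2 :=
        mul_le_mul_of_nonneg_right h7 (by positivity)
    _ = Real.exp (Q / (2 * π) + ε / (4 * π) * r + (M / (2 * π) * Q * 2 +
        ε / (4 * π) * M * 2)) := by
        rw [← Real.exp_nat_mul, ← Real.exp_add, ← Real.exp_add]
        congr 1
        push_cast
        ring
    _ ≤ Real.exp (r / (2 * π) * (Q + ε)) := by
        apply Real.exp_le_exp.2
        rw [hMr]
        have h7 : r / (2 * π) * (Q + ε) - (Q / (2 * π) + ε / (4 * π) * r +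
            ((r - 1) / 2 / (2 * π) * Q * 2 + ε / (4 * π) * ((r - 1) / 2) * 2)) =
            ε / (4 * π) := by
          field_simp
          ring
        linarith

/-- all 3-braids with the axis -/
theorem axis_all (k : ℤ) (s : List (Letter × ℕ)) {ε : ℝ} (hε : 0 < ε) :
    ∀ᶠ r : ℕ in atTop ⊓ 𝓟 {r : ℕ | Odd r},
      tvw (half k ++ syw s) r ≤ Real.exp (r / (2 * π) * (sr rt s + ε)) := by
  refine fup_gen _ _ (fun ε hε => ?_) hε
  filter_upwards [upw4 k s (Pc := fun _ => True) (fun _ _ _ => trivial) Wt_one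
    (fun η hη => Pb_all hη) hε]
    with M h a c h1 h2 h3 h4
  exact h a c h1 h2 h3 trivial h4

/-- all 3-braids without the axis -/
theorem closed_all (k : ℤ) (s : List (Letter × ℕ)) {ε : ℝ} (hε : 0 < ε) :
    ∀ᶠ r : ℕ in atTop ⊓ 𝓟 {r : ℕ | Odd r},
      tvd (half k ++ syw s) r ≤ Real.exp (r / (2 * π) * (sr rt s + ε)) := by
  refine clo_gen _ _ (fun ε hε => ?_) hε
  filter_upwards [clo4 k s (Pc := fun _ => True) (fun _ _ _ => trivial) Wt_one
    (fun η hη => Pb_all hη) hε]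
    with M h c h3 h4
  exact h c h3 trivial h4

lemma sr_const (b : ℝ) (s : List (Letter × ℕ)) : sr (fun _ => b) s = s.length * b := by
  induction s with
  | nil => simp [sr]
  | cons p s ih =>
    simp only [sr, List.map_cons, List.sum_cons, List.length_cons] at ih ⊢
    rw [ih]
    push_cast
    ring

/-- the uniform bound with the axis -/
theorem axis_unif (k : ℤ) (s : List (Letter × ℕ)) {ε : ℝ} (hε : 0 < ε) :
    ∀ᶠ r : ℕ in atTop ⊓ 𝓟 {r : ℕ | Odd r},
      tvw (half k ++ syw s) r ≤ Real.exp (r / (2 * π) * (s.length * (16 * lob (π / 4)) + ε)) := by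
  rw [← sr_const]
  refine fup_gen _ _ (fun ε hε => ?_) hε
  filter_upwards [upw4 k s (Pc := fun _ => True) (fun _ _ _ => trivial) Wt_om
    (fun η hη => Pb_bal hη) hε] with M h a c h1 h2 h3 h4
  exact h a c h1 h2 h3 trivial h4

/-- the uniform bound without the axis -/
theorem closed_unif (k : ℤ) (s : List (Letter × ℕ)) {ε : ℝ} (hε : 0 < ε) :
    ∀ᶠ r : ℕ in atTop ⊓ 𝓟 {r : ℕ | Odd r},
      tvd (half k ++ syw s) r ≤ Real.exp (r / (2 * π) * (s.length * (16 * lob (π / 4)) + ε)) := by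
  rw [← sr_const]
  refine clo_gen _ _ (fun ε hε => ?_) hε
  filter_upwards [clo4 k s (Pc := fun _ => True) (fun _ _ _ => trivial) Wt_om
    (fun η hη => Pb_bal hη) hε] with M h c h3 h4
  exact h c h3 trivial h4

/-- closed 3-braids which are knots, with the axis -/
theorem axis_knot (k : ℤ) (s : List (Letter × ℕ))
    (hk : ∀ c : Col, swW (half k ++ syw s) c = c → Eqc c) {ε : ℝ} (hε : 0 < ε) :
    ∀ᶠ r : ℕ in atTop ⊓ 𝓟 {r : ℕ | Odd r},
      tvw (half k ++ syw s) r ≤ Real.exp (r / (2 * π) * (sr rk s + ε)) := by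
  refine fup_gen _ _ (fun ε hε => ?_) hε
  filter_upwards [upw4 k s (Pc := Eqc) (fun l c h => by rw [Eqc_sw l h]; exact h)
    Wt_one (fun η hη => Pb_eq hη) hε] with M h a c h1 h2 h3 h4
  exact h a c h1 h2 h3 (hk c h4) h4

/-- closed 3-braids which are knots, without the axis -/
theorem closed_knot (k : ℤ) (s : List (Letter × ℕ))
    (hk : ∀ c : Col, swW (half k ++ syw s) c = c → Eqc c) {ε : ℝ} (hε : 0 < ε) :
    ∀ᶠ r : ℕ in atTop ⊓ 𝓟 {r : ℕ | Odd r},
      tvd (half k ++ syw s) r ≤ Real.exp (r / (2 * π) * (sr rk s + ε)) := by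
  refine clo_gen _ _ (fun ε hε => ?_) hε
  filter_upwards [clo4 k s (Pc := Eqc) (fun l c h => by rw [Eqc_sw l h]; exact h)
    Wt_one (fun η hη => Pb_eq hη) hε] with M h c h3 h4
  exact h c h3 (hk c h4) h4

end Pool.Agent.U909.CY
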