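import Pool.Agent.U909.CY.Evo
import Pool.Agent.Y412.CW.Let
import Pool.Agent.Y67.CW.Upw
import Pool.Agent.R807.TQ4

/-!
# Uniform bound for the even powers of the letters
-/

set_option autoImplicit false

namespace Pool.Agent.U909.CY

open Finset
open Pool.Agent.H550R3.Jones (br brf)
open Pool.Agent.Y482.CY (sb Nz Fn)
open Pool.Agent.Y482.CW
open Pool.Agent.Y681.CY (W W_pos)
open Pool.Agent.R807.TQ (P P_nonneg brf_split)
open Pool.Agent.Y333.CW (brf_ne brf_succ)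

/-- the bounds of the factorials -/
structure Kd (v : ℂ) (K : ℕ) (B β G : ℝ) : Prop where
  B0 : 0 < B
  b0 : 0 < β
  G0 : 0 < G
  l4 : ∀ u : ℕ, u ≤ 2 * K → 1 ≤ G * ‖brf v u‖
  up : ∀ (E : ℤ) (u : ℕ), u ≤ 2 * K → P v E u ^ 2 ≤ B * ‖brf v u‖
  l1 : ∀ u w : ℕ, u + w ≤ 2 * K → ‖brf v (u + w)‖ ≤ B * (‖brf v w‖ * ‖brf v u‖) ^ 2
  l2 : ∀ E n : ℕ, n ≤ E → E ≤ 2 * K → ‖brf v n‖ ≤ B * P v E n ^ 2
  l3 : ∀ k : ℕ, 1 ≤ k → k ≤ K → β ≤ ‖br v k‖

lemma P_add (v : ℂ) (E : ℤ) (u w : ℕ) : P v E (u + w) = P v E u * P v (E - u) w := by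
  unfold P
  rw [prod_range_add]
  congr 1
  refine prod_congr rfl fun t _ => ?_
  congr 2
  push_cast
  ring

lemma P_one (v : ℂ) (E : ℤ) : P v E 1 = ‖br v E‖ := by
  unfold P
  rw [prod_range_one]
  simp

lemma P_full (v : ℂ) (n : ℕ) : P v n n = ‖brf v n‖ := by
  have h := brf_split v (le_refl n)
  rw [Nat.sub_self] at h
  rw [h]
  simp [brf]

lemma br_le2 {v : ℂ} (hv1 : ‖v‖ = 1) (n : ℤ) : ‖br v n‖ ≤ 2 := Pool.Agent.Y67.CW.br_le hv1 n

/-- the estimate of the denominators -/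
lemma denQ {v : ℂ} (hv1 : ‖v‖ = 1) {K : ℕ} {B β G : ℝ} (hk : Kd v K B β G)
    {p q i j a : ℕ} (hij : i ≤ j) (hja : j ≤ a) (hap : a < p) (hjq : j < q) (hp : p ≤ K)
    (hq : q ≤ K) :
    ‖brf v (a - i)‖ * β ≤ B * (2 * (P v ((p : ℤ) + q - 1 - 2 * j - 1) (a - j) *
      P v ((p : ℤ) + q - 1 - i - j) (j - i))) ^ 2 := by
  have hB := hk.B0
  have e1 : P v ((p : ℤ) + q - 1 - i - j) (a - i + 1) =
      P v ((p : ℤ) + q - 1 - i - j) (j - i) * (‖br v ((p : ℤ) + q - 1 - 2 * j)‖ *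
        P v ((p : ℤ) + q - 1 - 2 * j - 1) (a - j)) := by
    have f1 : a - i + 1 = (j - i) + (1 + (a - j)) := by omega
    rw [f1, P_add, P_add, P_one]
    have f2 : (p : ℤ) + q - 1 - i - j - ((j - i : ℕ) : ℤ) = (p : ℤ) + q - 1 - 2 * j := by
      rw [Nat.cast_sub hij]; ring
    rw [f2]
    push_cast
    rfl
  have h2 := hk.l2 (p + q - 1 - i - j) (a - i + 1) (by omega) (by omega)
  have f4 : ((p + q - 1 - i - j : ℕ) : ℤ) = (p : ℤ) + q - 1 - i - j := by omega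
  rw [f4, brf_succ, norm_mul] at h2
  have h3 := hk.l3 (a - i + 1) (by omega) (by omega)
  have f5 : (((a - i : ℕ) : ℤ) + 1) = ((a - i + 1 : ℕ) : ℤ) := by push_cast; ring
  rw [f5] at h2
  have h4 : ‖brf v (a - i)‖ * β ≤ B * P v ((p : ℤ) + q - 1 - i - j) (a - i + 1) ^ 2 :=
    le_trans (mul_le_mul_of_nonneg_left h3 (norm_nonneg _)) h2
  refine h4.trans (mul_le_mul_of_nonneg_left ?_ hB.le)
  have p1 := P_nonneg v ((p : ℤ) + q - 1 - 2 * j - 1) (a - j)
  have p2 := P_nonneg v ((p : ℤ) + q - 1 - i - j) (j - i)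
  refine pow_le_pow_left₀ (P_nonneg _ _ _) ?_ 2
  rw [e1]
  have hZ2 := br_le2 hv1 ((p : ℤ) + q - 1 - 2 * j)
  calc P v ((p : ℤ) + q - 1 - i - j) (j - i) * (‖br v ((p : ℤ) + q - 1 - 2 * j)‖ *
        P v ((p : ℤ) + q - 1 - 2 * j - 1) (a - j))
      = ‖br v ((p : ℤ) + q - 1 - 2 * j)‖ * (P v ((p : ℤ) + q - 1 - 2 * j - 1) (a - j) *
        P v ((p : ℤ) + q - 1 - i - j) (j - i)) := by ring
    _ ≤ _ := mul_le_mul_of_nonneg_right hZ2 (by positivity)

lemma den {v : ℂ} (hv1 : ‖v‖ = 1) {K : ℕ} {B β G : ℝ} (hk : Kd v K B β G)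
    {p q i j a : ℕ} (hij : i ≤ j) (hja : j ≤ a) (hap : a < p) (hjq : j < q) (hp : p ≤ K)
    (hq : q ≤ K) :
    ‖brf v (a - i)‖ * √β / (2 * B) ≤ (‖brf v (a - j)‖ * P v ((p : ℤ) + q - 1 - 2 * j - 1) (a - j)) *
      (‖brf v (j - i)‖ * P v ((p : ℤ) + q - 1 - i - j) (j - i)) := by
  have hB := hk.B0
  have hb := hk.b0
  have h4 := denQ hv1 hk hij hja hap hjq hp hq
  have h1 := hk.l1 (j - i) (a - j) (by omega)
  have f3 : j - i + (a - j) = a - i := by omega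
  rw [f3] at h1
  have p1 := P_nonneg v ((p : ℤ) + q - 1 - 2 * j - 1) (a - j)
  have p2 := P_nonneg v ((p : ℤ) + q - 1 - i - j) (j - i)
  obtain ⟨S, hS⟩ : ∃ S : ℝ, S = ‖brf v (a - i)‖ := ⟨_, rfl⟩
  obtain ⟨X, hX⟩ : ∃ X : ℝ, X = ‖brf v (a - j)‖ * ‖brf v (j - i)‖ := ⟨_, rfl⟩
  obtain ⟨Q, hQ⟩ : ∃ Q : ℝ, Q = P v ((p : ℤ) + q - 1 - 2 * j - 1) (a - j) *
      P v ((p : ℤ) + q - 1 - i - j) (j - i) := ⟨_, rfl⟩
  have hS0 : 0 ≤ S := by rw [hS]; exact norm_nonneg _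
  have hX0 : 0 ≤ X := by rw [hX]; positivity
  have hQ0 : 0 ≤ Q := by rw [hQ]; positivity
  have e : (‖brf v (a - j)‖ * P v ((p : ℤ) + q - 1 - 2 * j - 1) (a - j)) *
      (‖brf v (j - i)‖ * P v ((p : ℤ) + q - 1 - i - j) (j - i)) = X * Q := by
    rw [hX, hQ]; ring
  rw [e, ← hS, div_le_iff₀ (by positivity)]
  rw [← hS, ← hX] at h1
  rw [← hS, ← hQ] at h4
  have h5 : (S * √β) ^ 2 ≤ (X * Q * (2 * B)) ^ 2 := by
    have h6 : S * (S * β) ≤ (B * X ^ 2) * (B * (2 * Q) ^ 2) :=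
      mul_le_mul h1 h4 (by positivity) (by positivity)
    calc (S * √β) ^ 2 = S * (S * β) := by rw [mul_pow, Real.sq_sqrt hb.le]; ring
      _ ≤ (B * X ^ 2) * (B * (2 * Q) ^ 2) := h6
      _ = _ := by ring
  exact abs_le_of_sq_le_sq' h5 (by positivity) |>.2

/-- products of the diagonals -/
lemma prod_rr {v : ℂ} (hv : v ≠ 0) (hv1 : ‖v‖ = 1) (s : Bool) (c c' : Col) {m i j a : ℕ}
    (hc' : (po s c' : ℤ) + c'.2.1 - 1 = (po s c : ℤ) + c.2.1 - 1) (hij : i ≤ j)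
    (hja : j ≤ a) :
    rr s c' v m j a * ‖el s c v m j i‖ =
      ((P v ((po s c' : ℤ) - j - 1) (a - j) * P v ((po s c : ℤ) - i - 1) (j - i)) *
        P v ((m : ℤ) - i) (a - i)) /
      ((‖brf v (a - j)‖ * P v ((po s c : ℤ) + c.2.1 - 1 - 2 * j - 1) (a - j)) *
      (‖brf v (j - i)‖ * P v ((po s c : ℤ) + c.2.1 - 1 - i - j) (j - i))) := by
  have hg : ∀ (c : Col) (b : ℕ), ‖gam s c v m (b + 1)‖ =
      ‖br v ((po s c : ℤ) - ((b + 1 : ℕ) : ℤ))‖ * ‖br v ((m : ℤ) - b)‖ := by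
    intro c b
    unfold gam
    rw [norm_mul, norm_mul, norm_neg, norm_zpow, hv1, _root_.one_zpow, one_mul]
    congr 3
    push_cast
    ring
  have h1 : rr s c' v m j a = (∏ b ∈ Ico j a, ‖br v ((po s c' : ℤ) - ((b + 1 : ℕ) : ℤ))‖) *
      (∏ b ∈ Ico j a, ‖br v ((m : ℤ) - b)‖) /
      (‖brf v (a - j)‖ * P v ((po s c : ℤ) + c.2.1 - 1 - 2 * j - 1) (a - j)) := by
    unfold rr
    have h2 : ∀ b ∈ Ico j a, ‖gam s c' v m (b + 1)‖ / ‖tau ((po s c' : ℤ) + c'.2.1 - 1) v j -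
        tau ((po s c' : ℤ) + c'.2.1 - 1) v ((b + 1 : ℕ) : ℤ)‖ =
        (‖br v ((po s c' : ℤ) - ((b + 1 : ℕ) : ℤ))‖ * ‖br v ((m : ℤ) - b)‖) /
        (‖br v (((b + 1 : ℕ) : ℤ) - j)‖ * ‖br v ((po s c : ℤ) + c.2.1 - 1 - j - ((b + 1 : ℕ) : ℤ))‖) := by
      intro b _
      rw [hg, hc', tau_sub hv, norm_mul]
    rw [prod_congr rfl h2, prod_div_distrib, prod_mul_distrib, prod_mul_distrib]
    congr 2
    · rw [prod_Ico_eq_prod_range]
      unfold brf
      rw [norm_prod]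
      refine prod_congr rfl fun t _ => ?_
      congr 2
      push_cast
      ring
    · rw [prod_Ico_eq_prod_range]
      unfold P
      refine prod_congr rfl fun t _ => ?_
      congr 2
      push_cast
      ring
  have h3 : ‖el s c v m j i‖ = (∏ b ∈ Ico i j, ‖br v ((po s c : ℤ) - ((b + 1 : ℕ) : ℤ))‖) *
      (∏ b ∈ Ico i j, ‖br v ((m : ℤ) - b)‖) /
      (‖brf v (j - i)‖ * P v ((po s c : ℤ) + c.2.1 - 1 - i - j) (j - i)) := by
    unfold el
    rw [norm_prod]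
    have h2 : ∀ b ∈ Ico i j, ‖gam s c v m (b + 1) / (tau ((po s c : ℤ) + c.2.1 - 1) v j -
        tau ((po s c : ℤ) + c.2.1 - 1) v b)‖ =
        (‖br v ((po s c : ℤ) - ((b + 1 : ℕ) : ℤ))‖ * ‖br v ((m : ℤ) - b)‖) /
        (‖br v ((j : ℤ) - b)‖ * ‖br v ((po s c : ℤ) + c.2.1 - 1 - b - j)‖) := by
      intro b _
      have e : tau ((po s c : ℤ) + c.2.1 - 1) v j - tau ((po s c : ℤ) + c.2.1 - 1) v b =
        -(tau ((po s c : ℤ) + c.2.1 - 1) v b - tau ((po s c : ℤ) + c.2.1 - 1) v j) := by ring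
      rw [e, norm_div, hg, norm_neg, tau_sub hv, norm_mul]
    rw [prod_congr rfl h2, prod_div_distrib, prod_mul_distrib, prod_mul_distrib]
    congr 2
    · rw [← P_full, prod_Ico_eq_prod_range]
      unfold P
      refine prod_congr rfl fun t _ => ?_
      congr 2
      push_cast [Nat.cast_sub hij]
      ring
    · rw [prod_Ico_eq_prod_range]
      unfold P
      refine prod_congr rfl fun t _ => ?_
      congr 2
      push_cast
      ring
  have h4 : P v ((po s c' : ℤ) - j - 1) (a - j) =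
      ∏ b ∈ Ico j a, ‖br v ((po s c' : ℤ) - ((b + 1 : ℕ) : ℤ))‖ := by
    rw [prod_Ico_eq_prod_range]
    unfold P
    refine prod_congr rfl fun t _ => ?_
    congr 2
    push_cast
    ring
  have h4' : P v ((po s c : ℤ) - i - 1) (j - i) =
      ∏ b ∈ Ico i j, ‖br v ((po s c : ℤ) - ((b + 1 : ℕ) : ℤ))‖ := by
    rw [prod_Ico_eq_prod_range]
    unfold P
    refine prod_congr rfl fun t _ => ?_
    congr 2
    push_cast
    ring
  have h5 : P v ((m : ℤ) - i) (a - i) =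
      (∏ b ∈ Ico i j, ‖br v ((m : ℤ) - b)‖) * ∏ b ∈ Ico j a, ‖br v ((m : ℤ) - b)‖ := by
    rw [prod_Ico_consecutive _ hij hja, prod_Ico_eq_prod_range]
    unfold P
    refine prod_congr rfl fun t _ => ?_
    congr 2
    push_cast
    ring
  rw [h1, h3, h4, h4', h5, div_mul_div_comm]
  congr 1
  ring

/-- the weights -/
lemma wt {v : ℂ} {K : ℕ} {B β G : ℝ} (hk : Kd v K B β G) {m i a : ℕ} (hNm : Nz v m)
    (hm : m ≤ 2 * K) (ham : a ≤ m) (hia : i ≤ a) :
    √(W v m a) * P v ((m : ℤ) - i) (a - i) ≤ √(B * ‖brf v (a - i)‖) * √(W v m i) := by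
  have hB := hk.B0
  have u2 := hk.up (a : ℤ) (a - i) (by omega)
  have u3 := hk.up ((m : ℤ) - i) (a - i) (by omega)
  obtain ⟨S, hS⟩ : ∃ S : ℝ, S = ‖brf v (a - i)‖ := ⟨_, rfl⟩
  have hS0 : 0 ≤ S := by rw [hS]; exact norm_nonneg _
  obtain ⟨p2, hp2⟩ : ∃ p2 : ℝ, p2 = P v (a : ℤ) (a - i) := ⟨_, rfl⟩
  obtain ⟨p3, hp3⟩ : ∃ p3 : ℝ, p3 = P v ((m : ℤ) - i) (a - i) := ⟨_, rfl⟩
  have hp20 : 0 ≤ p2 := by rw [hp2]; exact P_nonneg _ _ _
  have hp30 : 0 ≤ p3 := by rw [hp3]; exact P_nonneg _ _ _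
  rw [← hp2, ← hS] at u2
  rw [← hp3, ← hS] at u3
  rw [← hp3, ← hS]
  have hW : W v m a * p3 = p2 * W v m i := by
    unfold W
    have s1 := brf_split v (n := a) (u := a - i) (by omega)
    have s2 := brf_split v (n := m - i) (u := a - i) (by omega)
    rw [show a - (a - i) = i by omega, ← hp2] at s1
    rw [show m - i - (a - i) = m - a by omega,
      show ((m - i : ℕ) : ℤ) = (m : ℤ) - i by push_cast [Nat.cast_sub (show i ≤ m by omega)]; ring,
      ← hp3] at s2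
    rw [s1, s2]
    ring
  have hWa : 0 < W v m a := W_pos hNm (by omega)
  have hWi : 0 < W v m i := W_pos hNm (by omega)
  have h1 : √(W v m a) * p3 = √(p2 * p3) * √(W v m i) := by
    rw [← Real.sqrt_mul (by positivity)]
    have : p2 * p3 * W v m i = W v m a * p3 ^ 2 := by
      linear_combination -(p3 * hW)
    rw [this, Real.sqrt_mul hWa.le, Real.sqrt_sq hp30]
  have h2 : p2 * p3 ≤ B * S := by
    refine abs_le_of_sq_le_sq' ?_ (by positivity) |>.2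
    rw [mul_pow, sq (B * S)]
    exact mul_le_mul u2 u3 (by positivity) (by positivity)
  rw [h1]
  exact mul_le_mul_of_nonneg_right (Real.sqrt_le_sqrt h2) (Real.sqrt_nonneg _)

/-- the key inequality, colours which return -/
theorem key {v : ℂ} (hv : v ≠ 0) (hv1 : ‖v‖ = 1) {K : ℕ} (hN : Nz v (2 * K)) {B β G : ℝ}
    (hk : Kd v K B β G) (s : Bool) {c : Col} (hc : Ok K c) {m i j a : ℕ} (hm : m ≤ 2 * K)
    (ham : a ≤ m) (hij : i ≤ j) (hja : j ≤ a) (hap : a < po s c) (hjq : j < c.2.1) :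
    √(W v m a) * (rr s c v m j a * ‖el s c v m j i‖) ≤ 2 * B ^ 2 / √β * √(W v m i) := by
  have hpK : po s c ≤ K := by
    cases s
    · exact hc.1
    · exact hc.2.2
  have hB := hk.B0
  have hb := hk.b0
  have hNm : Nz v m := fun l h1 h2 => hN l h1 (by omega)
  rw [prod_rr hv hv1 s c c rfl hij hja]
  have hden := den hv1 hk hij hja hap hjq hpK hc.2.1
  obtain ⟨D, hD⟩ : ∃ D : ℝ, D = (‖brf v (a - j)‖ * P v ((po s c : ℤ) + c.2.1 - 1 - 2 * j - 1) (a - j)) *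
      (‖brf v (j - i)‖ * P v ((po s c : ℤ) + c.2.1 - 1 - i - j) (j - i)) := ⟨_, rfl⟩
  rw [← hD] at hden ⊢
  have h1 := wt hk hNm hm ham (hij.trans hja)
  have u1 := hk.up ((po s c : ℤ) - i - 1) (a - i) (by omega)
  obtain ⟨S, hS⟩ : ∃ S : ℝ, S = ‖brf v (a - i)‖ := ⟨_, rfl⟩
  have hS0 : 0 < S := by
    rw [hS]
    exact norm_pos_iff.2 (brf_ne hNm (by omega))
  rw [← hS] at hden h1 u1
  have hD0 : 0 < D := lt_of_lt_of_le (by positivity) hden
  have e1 : P v ((po s c : ℤ) - j - 1) (a - j) * P v ((po s c : ℤ) - i - 1) (j - i) =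
      P v ((po s c : ℤ) - i - 1) (a - i) := by
    have f1 : a - i = (j - i) + (a - j) := by omega
    have f2 : (po s c : ℤ) - i - 1 - ((j - i : ℕ) : ℤ) = (po s c : ℤ) - j - 1 := by
      rw [Nat.cast_sub hij]; ring
    rw [f1, P_add, f2]
    ring
  rw [e1]
  obtain ⟨p1, hp1⟩ : ∃ p1 : ℝ, p1 = P v ((po s c : ℤ) - i - 1) (a - i) := ⟨_, rfl⟩
  obtain ⟨p3, hp3⟩ : ∃ p3 : ℝ, p3 = P v ((m : ℤ) - i) (a - i) := ⟨_, rfl⟩
  have hp10 : 0 ≤ p1 := by rw [hp1]; exact P_nonneg _ _ _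
  rw [← hp1] at u1 ⊢
  rw [← hp3] at h1 ⊢
  have h2 : p1 ≤ √(B * S) := Real.le_sqrt_of_sq_le u1
  have h3 : √(B * S) * √(B * S) = B * S := Real.mul_self_sqrt (by positivity)
  have hβ : 0 < √β := Real.sqrt_pos.2 hb
  rw [div_le_iff₀ (by positivity)] at hden
  calc √(W v m a) * (p1 * p3 / D) = (√(W v m a) * p3) * p1 / D := by ring
    _ ≤ (√(B * S) * √(W v m i)) * √(B * S) / D := by
        gcongr
    _ = (B * S) * √(W v m i) / D := by linear_combination (√(W v m i) / D) * h3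
    _ ≤ 2 * B ^ 2 / √β * √(W v m i) := by
        have h4 : B * S / D ≤ 2 * B ^ 2 / √β := by
          rw [div_le_div_iff₀ hD0 hβ]
          nlinarith [mul_le_mul_of_nonneg_left hden hB.le]
        calc (B * S) * √(W v m i) / D = (B * S / D) * √(W v m i) := by ring
          _ ≤ _ := mul_le_mul_of_nonneg_right h4 (Real.sqrt_nonneg _)

/-- the key inequality, colours which are exchanged -/
theorem key_odd {v : ℂ} (hv : v ≠ 0) (hv1 : ‖v‖ = 1) {K : ℕ} (hN : Nz v (2 * K)) {B β G : ℝ}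
    (hk : Kd v K B β G) (s t : Bool) {c : Col} (hc : Ok K c) {m i j a : ℕ} (hm : m ≤ 2 * K)
    (ham : a ≤ m) (hij : i ≤ j) (hja : j ≤ a) (hap : a < c.2.1) (hjq : j < po s c) :
    √(W v m a) * (rr s (sw (s, t) c) v m j a * ‖el s c v m j i‖) ≤
      2 * B ^ 2 * G / √β * √(W v m i) := by
  have hpK : po s c ≤ K := by
    cases s
    · exact hc.1
    · exact hc.2.2
  have hB := hk.B0
  have hb := hk.b0
  have hG := hk.G0
  have hNm : Nz v m := fun l h1 h2 => hN l h1 (by omega)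
  rw [prod_rr hv hv1 s c (sw (s, t) c) (by rw [po_sw, sw_mid]; ring) hij hja, po_sw]
  have hQ := denQ hv1 hk (p := c.2.1) (q := po s c) hij hja hap hjq hc.2.1 hpK
  have f0 : (c.2.1 : ℤ) + (po s c : ℤ) - 1 = (po s c : ℤ) + c.2.1 - 1 := by ring
  rw [f0] at hQ
  have h1 := wt hk hNm hm ham (hij.trans hja)
  have u1 := hk.up ((c.2.1 : ℤ) - j - 1) (a - j) (by omega)
  have u2 := hk.up ((po s c : ℤ) - i - 1) (j - i) (by omega)
  have g1 := hk.l4 (a - j) (by omega)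
  have g2 := hk.l4 (j - i) (by omega)
  have p1 := P_nonneg v ((po s c : ℤ) + c.2.1 - 1 - 2 * j - 1) (a - j)
  have p2 := P_nonneg v ((po s c : ℤ) + c.2.1 - 1 - i - j) (j - i)
  have p3 := P_nonneg v ((c.2.1 : ℤ) - j - 1) (a - j)
  have p4 := P_nonneg v ((po s c : ℤ) - i - 1) (j - i)
  have hS0 : 0 < ‖brf v (a - i)‖ := norm_pos_iff.2 (brf_ne hNm (by omega))
  have hw0 : 0 < ‖brf v (a - j)‖ := norm_pos_iff.2 (brf_ne hNm (by omega))
  have hu0 : 0 < ‖brf v (j - i)‖ := norm_pos_iff.2 (brf_ne hNm (by omega))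
  obtain ⟨S, hS⟩ : ∃ S : ℝ, S = ‖brf v (a - i)‖ := ⟨_, rfl⟩
  obtain ⟨w, hw⟩ : ∃ w : ℝ, w = ‖brf v (a - j)‖ := ⟨_, rfl⟩
  obtain ⟨u, hu⟩ : ∃ u : ℝ, u = ‖brf v (j - i)‖ := ⟨_, rfl⟩
  obtain ⟨Q1, hQ1⟩ : ∃ Q1 : ℝ, Q1 = P v ((po s c : ℤ) + c.2.1 - 1 - 2 * j - 1) (a - j) := ⟨_, rfl⟩
  obtain ⟨Q2, hQ2⟩ : ∃ Q2 : ℝ, Q2 = P v ((po s c : ℤ) + c.2.1 - 1 - i - j) (j - i) := ⟨_, rfl⟩
  obtain ⟨x1, hx1⟩ : ∃ x1 : ℝ, x1 = P v ((c.2.1 : ℤ) - j - 1) (a - j) := ⟨_, rfl⟩
  obtain ⟨x2, hx2⟩ : ∃ x2 : ℝ, x2 = P v ((po s c : ℤ) - i - 1) (j - i) := ⟨_, rfl⟩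
  obtain ⟨x3, hx3⟩ : ∃ x3 : ℝ, x3 = P v ((m : ℤ) - i) (a - i) := ⟨_, rfl⟩
  have hx30 : 0 ≤ x3 := by rw [hx3]; exact P_nonneg _ _ _
  rw [← hS] at hQ h1 hS0
  rw [← hw] at u1 g1 hw0 ⊢
  rw [← hu] at u2 g2 hu0 ⊢
  rw [← hQ1] at hQ p1 ⊢
  rw [← hQ2] at hQ p2 ⊢
  rw [← hx1] at u1 p3 ⊢
  rw [← hx2] at u2 p4 ⊢
  rw [← hx3] at h1 ⊢
  have hQ0 : 0 < Q1 * Q2 := by
    rcases (mul_nonneg p1 p2).lt_or_eq with h | h
    · exact h
    · rw [← h] at hQ
      have : 0 < S * β := by positivity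
      nlinarith
  have hβ : 0 < √β := Real.sqrt_pos.2 hb
  have h2 : x1 ≤ √(B * w) := Real.le_sqrt_of_sq_le u1
  have h3 : x2 ≤ √(B * u) := Real.le_sqrt_of_sq_le u2
  have h4 : √(B * S) * (√(B * w) * √(B * u)) * √β ≤ 2 * B ^ 2 * G * (w * u * (Q1 * Q2)) := by
    have h5 : (√(B * S) * (√(B * w) * √(B * u)) * √β) ^ 2 ≤
        (2 * B ^ 2 * G * (w * u * (Q1 * Q2))) ^ 2 := by
      rw [mul_pow, mul_pow, mul_pow, Real.sq_sqrt (by positivity), Real.sq_sqrt (by positivity),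
        Real.sq_sqrt (by positivity), Real.sq_sqrt hb.le]
      have h6 : 1 ≤ (G * w) * (G * u) := by nlinarith
      calc B * S * (B * w * (B * u)) * β = (B ^ 3 * (w * u)) * (S * β) := by ring
        _ ≤ (B ^ 3 * (w * u)) * (B * (2 * (Q1 * Q2)) ^ 2) :=
            mul_le_mul_of_nonneg_left hQ (by positivity)
        _ = (4 * B ^ 4 * (w * u) * (Q1 * Q2) ^ 2) * 1 := by ring
        _ ≤ (4 * B ^ 4 * (w * u) * (Q1 * Q2) ^ 2) * ((G * w) * (G * u)) :=
            mul_le_mul_of_nonneg_left h6 (by positivity)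
        _ = _ := by ring
    exact abs_le_of_sq_le_sq' h5 (by positivity) |>.2
  have hW0 : 0 ≤ √(W v m i) := Real.sqrt_nonneg _
  have hD0 : 0 < w * Q1 * (u * Q2) := by
    have : w * Q1 * (u * Q2) = w * u * (Q1 * Q2) := by ring
    rw [this]
    positivity
  calc √(W v m a) * (x1 * x2 * x3 / (w * Q1 * (u * Q2)))
      = (√(W v m a) * x3) * (x1 * x2) / (w * Q1 * (u * Q2)) := by ring
    _ ≤ (√(B * S) * √(W v m i)) * (√(B * w) * √(B * u)) / (w * Q1 * (u * Q2)) := by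
        gcongr
    _ = (√(B * S) * (√(B * w) * √(B * u)) / (w * Q1 * (u * Q2))) * √(W v m i) := by ring
    _ ≤ 2 * B ^ 2 * G / √β * √(W v m i) := by
        refine mul_le_mul_of_nonneg_right ?_ hW0
        rw [div_le_div_iff₀ hD0 hβ]
        calc √(B * S) * (√(B * w) * √(B * u)) * √β ≤ 2 * B ^ 2 * G * (w * u * (Q1 * Q2)) := h4
          _ = 2 * B ^ 2 * G * (w * Q1 * (u * Q2)) := by ring

lemma Nn_ph (s : Bool) (v : ℂ) (m : ℕ) (x : Fn) :
    Nn v m x = ∑ a ∈ range (m + 1), √(W v m a) * ‖ph s m a x‖ := by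
  cases s
  · rfl
  · unfold Nn
    rw [← Finset.sum_range_reflect]
    refine sum_congr rfl fun a ha => ?_
    have ha' : a ≤ m := by have := mem_range.1 ha; omega
    unfold W ph
    simp only
    rw [show m + 1 - 1 - a = m - a by omega, show m - (m - a) = a by omega, mul_comm ‖brf v (m - a)‖]

/-- the words as linear maps -/
noncomputable def FWL (w : List Letter) (c : Col) (v : ℂ) : Fn →ₗ[ℂ] Fn where
  toFun := FW w c v
  map_add' := Pool.Agent.Y67.CW.FW_add v w c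
  map_smul' := Pool.Agent.Y67.CW.FW_smul v w c

/-- bound for the powers of a letter -/
theorem gen_bound {v : ℂ} (hv : v ≠ 0) (hv1 : ‖v‖ = 1) {K : ℕ} (hN : Nz v (2 * K)) {X : ℝ}
    (hX0 : 0 ≤ X) (s t : Bool) (n : ℕ) {c c' : Col} (hc : Ok K c) (hc' : Ok K c')
    (hcc : swW (List.replicate n (s, t)) c = c') (hmin : min (po s c) c.2.1 ≤ c'.2.1) {m : ℕ}
    (hm : m ≤ 2 * K) {x : Fn} (hx : Hv v c m x)
    (hkey : ∀ i j a : ℕ, a ≤ m → i ≤ j → j ≤ a → a < po s c' → j < min (po s c) c.2.1 →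
      √(W v m a) * (rr s c' v m j a * ‖el s c v m j i‖) ≤ X * √(W v m i)) :
    Nn v m (FW (List.replicate n (s, t)) c v x) ≤ ((m : ℝ) + 1) ^ 2 * X * Nn v m x := by
  obtain ⟨xs, h1, h2⟩ := dec_full hv s hN hc hm hx
  obtain ⟨w, hw⟩ : ∃ w : List Letter, w = List.replicate n (s, t) := ⟨_, rfl⟩
  have hNx : 0 ≤ Nn v m x := Pool.Agent.Y547.CW.Nn_nonneg _ _ _
  -- one channel
  have hch : ∀ j ∈ range (min (po s c) c.2.1), ∀ a ≤ m,
      √(W v m a) * ‖ph s m a (FW w c v (xs j))‖ ≤ if j ≤ a then X * Nn v m x else 0 := by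
    intro j hj a ham
    have hj' := mem_range.1 hj
    obtain ⟨k1, k2, k3, k4⟩ := h1 j hj'
    by_cases hjm : j ≤ m
    · obtain ⟨l1, l2, l3⟩ := ev_word hv hv1 hN s t hm hjm n hc k1 (k2 hjm)
      rw [hcc] at l1 l2
      rw [← hw] at l1 l2 l3
      by_cases hja : j ≤ a
      · rw [if_pos hja]
        by_cases hap : a < po s c'
        · have e1 : ‖ph s m a (FW w c v (xs j))‖ = ‖ph s m j (FW w c v (xs j))‖ * rr s c' v m j a :=
            Cj_coord hv hN s hc' (show j < c'.2.1 by omega) l2 a hja hap ham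
          rw [e1, l3, k4 hjm]
          have e2 : ‖∑ i ∈ range (j + 1), el s c v m j i * ph s m i x‖ ≤
              ∑ i ∈ range (j + 1), ‖el s c v m j i‖ * ‖ph s m i x‖ := by
            refine (norm_sum_le _ _).trans (le_of_eq ?_)
            exact sum_congr rfl fun i _ => norm_mul _ _
          have e3 : 0 ≤ rr s c' v m j a := by
            unfold rr
            exact prod_nonneg fun b _ => by positivity
          calc √(W v m a) * (‖∑ i ∈ range (j + 1), el s c v m j i * ph s m i x‖ * rr s c' v m j a)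
              ≤ √(W v m a) * ((∑ i ∈ range (j + 1), ‖el s c v m j i‖ * ‖ph s m i x‖) *
                rr s c' v m j a) := by gcongr
            _ = ∑ i ∈ range (j + 1), (√(W v m a) * (rr s c' v m j a * ‖el s c v m j i‖)) *
                ‖ph s m i x‖ := by
                rw [sum_mul, mul_sum]
                exact sum_congr rfl fun i _ => by ring
            _ ≤ ∑ i ∈ range (j + 1), (X * √(W v m i)) * ‖ph s m i x‖ := by
                refine sum_le_sum fun i hi => ?_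
                refine mul_le_mul_of_nonneg_right ?_ (norm_nonneg _)
                exact hkey i j a ham (by have := mem_range.1 hi; omega) hja hap hj'
            _ ≤ ∑ i ∈ range (m + 1), (X * √(W v m i)) * ‖ph s m i x‖ := by
                refine sum_le_sum_of_subset_of_nonneg ?_ fun i _ _ => by positivity
                intro i hi
                rw [mem_range] at hi ⊢
                omega
            _ = X * Nn v m x := by
                rw [Nn_ph s, mul_sum]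
                exact sum_congr rfl fun i _ => by ring
        · rw [ph_box l1 (by omega), norm_zero, mul_zero]
          positivity
      · rw [if_neg hja]
        have : ph s m a (FW w c v (xs j)) = 0 := l2.1 a (by omega) ham
        rw [this, norm_zero, mul_zero]
    · have h0 : FW w c v (xs j) = 0 := by
        rw [k3 (by omega)]
        exact (FWL w c v).map_zero
      rw [h0]
      have : ph s m a (0 : Fn) = 0 := by cases s <;> rfl
      rw [this, norm_zero, mul_zero]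
      split_ifs <;> positivity
  rw [Nn_ph s, ← hw]
  have h3 : ∀ a ∈ range (m + 1), √(W v m a) * ‖ph s m a (FW w c v x)‖ ≤
      ((m : ℝ) + 1) * (X * Nn v m x) := by
    intro a ha
    have ham : a ≤ m := by have := mem_range.1 ha; omega
    have e1 : ph s m a (FW w c v x) = ∑ j ∈ range (min (po s c) c.2.1), ph s m a (FW w c v (xs j)) := by
      have e2 : FW w c v x = ∑ j ∈ range (min (po s c) c.2.1), FW w c v (xs j) := by
        conv_lhs => rw [h2]
        exact map_sum (FWL w c v) _ _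
      rw [e2]
      exact map_sum (phL s m a) _ _
    rw [e1]
    calc √(W v m a) * ‖∑ j ∈ range (min (po s c) c.2.1), ph s m a (FW w c v (xs j))‖
        ≤ √(W v m a) * ∑ j ∈ range (min (po s c) c.2.1), ‖ph s m a (FW w c v (xs j))‖ :=
          mul_le_mul_of_nonneg_left (norm_sum_le _ _) (Real.sqrt_nonneg _)
      _ = ∑ j ∈ range (min (po s c) c.2.1), √(W v m a) * ‖ph s m a (FW w c v (xs j))‖ := by
          rw [mul_sum]
      _ ≤ ∑ j ∈ range (min (po s c) c.2.1), if j ≤ a then X * Nn v m x else 0 :=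
          sum_le_sum fun j hj => hch j hj a ham
      _ = ∑ j ∈ (range (min (po s c) c.2.1)).filter (fun j => j ≤ a), X * Nn v m x := by
          rw [sum_filter]
      _ ≤ ((m : ℝ) + 1) * (X * Nn v m x) := by
          rw [sum_const, nsmul_eq_mul]
          refine mul_le_mul_of_nonneg_right ?_ (by positivity)
          have : ((range (min (po s c) c.2.1)).filter (fun j => j ≤ a)).card ≤ (range (m + 1)).card := by
            refine card_le_card fun j hj => ?_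
            rw [mem_filter] at hj
            rw [mem_range]
            omega
          rw [card_range] at this
          exact_mod_cast this
  refine (sum_le_sum h3).trans (le_of_eq ?_)
  rw [sum_const, card_range, nsmul_eq_mul]
  push_cast
  ring

/-- powers which return to the same colours -/
theorem ret_bound {v : ℂ} (hv : v ≠ 0) (hv1 : ‖v‖ = 1) {K : ℕ} (hN : Nz v (2 * K)) {B β G : ℝ}
    (hk : Kd v K B β G) (s t : Bool) (n : ℕ) {c : Col} (hc : Ok K c)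
    (hcc : swW (List.replicate n (s, t)) c = c) {m : ℕ} (hm : m ≤ 2 * K) {x : Fn}
    (hx : Hv v c m x) :
    Nn v m (FW (List.replicate n (s, t)) c v x) ≤
      ((m : ℝ) + 1) ^ 2 * (2 * B ^ 2 / √β) * Nn v m x := by
  have hB := hk.B0
  have hb := hk.b0
  exact gen_bound hv hv1 hN (by positivity) s t n hc hc hcc (by omega) hm hx
    fun i j a h1 h2 h3 h4 h5 => key hv hv1 hN hk s hc hm h1 h2 h3 h4 (by omega)

/-- powers which exchange the colours -/
theorem odd_bound {v : ℂ} (hv : v ≠ 0) (hv1 : ‖v‖ = 1) {K : ℕ} (hN : Nz v (2 * K)) {B β G : ℝ}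
    (hk : Kd v K B β G) (s t : Bool) (n : ℕ) {c : Col} (hc : Ok K c) {m : ℕ} (hm : m ≤ 2 * K)
    {x : Fn} (hx : Hv v c m x) :
    Nn v m (FW (List.replicate (2 * n + 1) (s, t)) c v x) ≤
      ((m : ℝ) + 1) ^ 2 * (2 * B ^ 2 * G / √β) * Nn v m x := by
  have hB := hk.B0
  have hb := hk.b0
  have hG := hk.G0
  have hcc : swW (List.replicate (2 * n + 1) (s, t)) c = sw (s, t) c := by
    rw [List.replicate_succ]
    exact swW_even s t n (sw (s, t) c)
  exact gen_bound hv hv1 hN (by positivity) s t (2 * n + 1) hc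
    (Pool.Agent.Y547.CW.Ok_sw (s, t) hc) hcc (by rw [sw_mid]; omega) hm hx
    fun i j a h1 h2 h3 h4 h5 => key_odd hv hv1 hN hk s t hc hm h1 h2 h3 (by rwa [po_sw] at h4)
      (by omega)

end Pool.Agent.U909.CY
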