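import Pool.Agent.U909.CY.Cas
import Pool.Agent.Y333.CW.INV

/-!
# The letters and the Casimir operators in coordinates
-/

set_option autoImplicit false

namespace Pool.Agent.U909.CY

open Finset
open Pool.Agent.H550R3.Jones (br brf)
open Pool.Agent.Y482.CY (sb Nz Fn)
open Pool.Agent.Y482.CW
open Pool.Agent.Y333.CW (brf_ne brf_succ sb_zero)

/-- exponents of the triangular matrices -/
def ep (s : Bool) (c : Col) (m a i : ℤ) : ℤ :=
  match s with
  | false => ((c.1 : ℤ) - c.2.2) * a + ((c.2.1 : ℤ) + c.2.2 - 2) * i - i * (a - 1) +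
      2 * (m - a) * (a - i) + (a - i) * (a - i - 1)
  | true => -(2 * ((c.2.2 : ℤ) - 1) * a) + ((c.2.1 : ℤ) + c.2.2 - 2) * (a - i) -
      (a - i) * (a - 1) + i * (i - 1)

/-- the letter `(s, s)` in coordinates -/
noncomputable def TL (s : Bool) (c : Col) (v : ℂ) (m a i : ℕ) : ℂ :=
  if i ≤ a then (-1) ^ a * v ^ ep s c m a i * sb v (m - i) (a - i) else 0

/-- a sign -/
def sg (s : Bool) : ℤ := if s then -1 else 1

lemma ep_i (s : Bool) (c : Col) (m a i : ℤ) :
    ep s c m a (i + 1) + ge s c m (i + 1) = ep s c m a i + sg s * ((c.2.1 : ℤ) - a) := by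
  cases s <;> simp [ep, ge, sg] <;> ring

lemma ep_a (s t : Bool) (c : Col) (m a i : ℤ) :
    ge s (sw (s, t) c) m (a + 1) + ep s c m a i =
      ep s c m (a + 1) i - sg s * ((po s c : ℤ) - i - 1) := by
  cases s <;> simp [ep, ge, sg, po, sw] <;> ring

lemma po_sw (s t : Bool) (c : Col) : po s (sw (s, t) c) = c.2.1 := by
  cases s <;> rfl

lemma sw_mid (s t : Bool) (c : Col) : (sw (s, t) c).2.1 = po s c := by
  cases s <;> rfl

lemma br_sg {v : ℂ} (hv : v ≠ 0) (s : Bool) (x y : ℤ) :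
    br v (x + y) = v ^ (sg s * y) * br v x + v ^ (-(sg s * x)) * br v y := by
  cases s
  · have h := br_add hv x y
    simpa [sg] using h
  · have h := br_add' hv x y
    simpa [sg] using h

lemma sb_i {v : ℂ} {m a i : ℕ} (h : Nz v m) (hia : i < a) (ham : a ≤ m) :
    sb v (m - (i + 1)) (a - (i + 1)) * br v ((m : ℤ) - i) =
      sb v (m - i) (a - i) * br v ((a : ℤ) - i) := by
  obtain ⟨u, rfl⟩ : ∃ u, a = i + 1 + u := ⟨a - (i + 1), by omega⟩
  obtain ⟨w, rfl⟩ : ∃ w, m = i + 1 + u + w := ⟨m - (i + 1 + u), by omega⟩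
  unfold sb
  have e1 : i + 1 + u + w - (i + 1) = u + w := by omega
  have e2 : i + 1 + u - (i + 1) = u := by omega
  have e3 : u + w - u = w := by omega
  have e4 : i + 1 + u + w - i = u + w + 1 := by omega
  have e5 : i + 1 + u - i = u + 1 := by omega
  have e6 : u + w + 1 - (u + 1) = w := by omega
  rw [e1, e2, e3, e4, e5, e6, brf_succ v (u + w), brf_succ v u]
  have f1 : (((i + 1 + u + w : ℕ) : ℤ) - i) = ((u + w : ℕ) : ℤ) + 1 := by push_cast; ring
  have f2 : (((i + 1 + u : ℕ) : ℤ) - i) = (u : ℤ) + 1 := by push_cast; ring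
  rw [f1, f2]
  have n1 := brf_ne h (n := u) (by omega)
  have n2 := brf_ne h (n := w) (by omega)
  have n3 := Pool.Agent.Y333.CW.br_ne h (n := u) (by omega)
  field_simp

lemma sb_a {v : ℂ} {m a i : ℕ} (h : Nz v m) (hia : i ≤ a) (ham : a + 1 ≤ m) :
    sb v (m - i) (a - i) * br v ((m : ℤ) - ((a + 1 : ℕ) : ℤ) + 1) =
      sb v (m - i) (a + 1 - i) * br v (((a + 1 : ℕ) : ℤ) - i) := by
  obtain ⟨u, rfl⟩ : ∃ u, a = i + u := ⟨a - i, by omega⟩
  obtain ⟨w, rfl⟩ : ∃ w, m = i + u + 1 + w := ⟨m - (i + u + 1), by omega⟩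
  unfold sb
  have e1 : i + u + 1 + w - i = u + 1 + w := by omega
  have e2 : i + u - i = u := by omega
  have e3 : u + 1 + w - u = w + 1 := by omega
  have e4 : i + u + 1 - i = u + 1 := by omega
  have e5 : u + 1 + w - (u + 1) = w := by omega
  rw [e1, e2, e3, e4, e5, brf_succ v w, brf_succ v u]
  have f1 : (((i + u + 1 + w : ℕ) : ℤ) - ((i + u + 1 : ℕ) : ℤ) + 1) = (w : ℤ) + 1 := by
    push_cast; ring
  have f2 : (((i + u + 1 : ℕ) : ℤ) - i) = (u : ℤ) + 1 := by push_cast; ring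
  rw [f1, f2]
  have n1 := brf_ne h (n := u) (by omega)
  have n2 := brf_ne h (n := w) (by omega)
  have n3 := Pool.Agent.Y333.CW.br_ne h (n := u) (by omega)
  have n4 := Pool.Agent.Y333.CW.br_ne h (n := w) (by omega)
  field_simp

lemma TL_gt {s : Bool} {c : Col} {v : ℂ} {m a i : ℕ} (h : a < i) : TL s c v m a i = 0 := by
  unfold TL
  rw [if_neg (by omega)]

/-- the commutation relation -/
theorem comm {v : ℂ} (hv : v ≠ 0) (s t : Bool) (c : Col) {m : ℕ} (h : Nz v m) {a i : ℕ}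
    (ha : a ≤ m) :
    TL s c v m a i * tau ((po s c : ℤ) + c.2.1 - 1) v i + TL s c v m a (i + 1) * gam s c v m (i + 1) =
      tau ((po s c : ℤ) + c.2.1 - 1) v a * TL s c v m a i +
        gam s (sw (s, t) c) v m a * dn (fun b => TL s c v m b i) a := by
  rcases lt_trichotomy i a with hia | hia | hia
  · obtain ⟨a, rfl⟩ : ∃ b, a = b + 1 := ⟨a - 1, by omega⟩
    have hia' : i ≤ a := by omega
    simp only [dn]
    unfold TL gam
    rw [if_pos (by omega), if_pos (by omega), if_pos hia', po_sw]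
    have e1 := sb_i h hia ha
    have e2 := sb_a h hia' ha
    have e3 := tau_sub hv ((po s c : ℤ) + c.2.1 - 1) (i : ℤ) ((a + 1 : ℕ) : ℤ)
    have e4 : (po s c : ℤ) + c.2.1 - 1 - i - ((a + 1 : ℕ) : ℤ) =
      ((po s c : ℤ) - i - 1) + ((c.2.1 : ℤ) - ((a + 1 : ℕ) : ℤ)) := by ring
    rw [e4, br_sg hv s] at e3
    have e5 : v ^ ep s c m ((a + 1 : ℕ) : ℤ) ((i + 1 : ℕ) : ℤ) * v ^ ge s c m ((i + 1 : ℕ) : ℤ) =
        v ^ ep s c m ((a + 1 : ℕ) : ℤ) i * v ^ (sg s * ((c.2.1 : ℤ) - ((a + 1 : ℕ) : ℤ))) := by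
      rw [← zpow_add₀ hv, ← zpow_add₀ hv]
      congr 1
      have := ep_i s c m ((a + 1 : ℕ) : ℤ) i
      push_cast at this ⊢
      exact this
    have e6 : v ^ ge s (sw (s, t) c) m ((a + 1 : ℕ) : ℤ) * v ^ ep s c m (a : ℤ) i =
        v ^ ep s c m ((a + 1 : ℕ) : ℤ) i * v ^ (-(sg s * ((po s c : ℤ) - i - 1))) := by
      rw [← zpow_add₀ hv, ← zpow_add₀ hv]
      congr 1
      have := ep_a s t c m a i
      push_cast at this ⊢
      rw [this]
      ring
    have e7 : ((m : ℤ) - ((i + 1 : ℕ) : ℤ) + 1) = (m : ℤ) - i := by push_cast; ring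
    have e8 : ((po s c : ℤ) - ((i + 1 : ℕ) : ℤ)) = (po s c : ℤ) - i - 1 := by push_cast; ring
    rw [e7, e8, pow_succ]
    set A := v ^ ep s c m ((a + 1 : ℕ) : ℤ) i with hA
    set B := v ^ ep s c m ((a + 1 : ℕ) : ℤ) ((i + 1 : ℕ) : ℤ) with hB
    set G := v ^ ge s c m ((i + 1 : ℕ) : ℤ) with hG
    set G' := v ^ ge s (sw (s, t) c) m ((a + 1 : ℕ) : ℤ) with hG'
    set D := v ^ ep s c m (a : ℤ) i with hD
    set X := br v ((po s c : ℤ) - i - 1) with hX
    set Y := br v ((c.2.1 : ℤ) - ((a + 1 : ℕ) : ℤ)) with hY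
    set s1 := sb v (m - (i + 1)) (a + 1 - (i + 1)) with hs1
    set s0 := sb v (m - i) (a + 1 - i) with hs0
    set s2 := sb v (m - i) (a - i) with hs2
    set t1 := br v ((m : ℤ) - i) with ht1
    set t2 := br v ((m : ℤ) - ((a + 1 : ℕ) : ℤ) + 1) with ht2
    set t0 := br v (((a + 1 : ℕ) : ℤ) - i) with ht0
    set p1 := v ^ (sg s * ((c.2.1 : ℤ) - ((a + 1 : ℕ) : ℤ))) with hp1
    set p2 := v ^ (-(sg s * ((po s c : ℤ) - i - 1))) with hp2
    linear_combination (-(-1 : ℂ) ^ a * A * s0) * e3 + ((-1 : ℂ) ^ a * B * G * X) * e1 +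
      ((-1 : ℂ) ^ a * s0 * t0 * X) * e5 + ((-1 : ℂ) ^ a * G' * D * Y) * e2 +
      ((-1 : ℂ) ^ a * s0 * t0 * Y) * e6
  · subst hia
    rw [TL_gt (show i < i + 1 by omega)]
    have : dn (fun b => TL s c v m b i) i = 0 := by
      rcases i with _ | i
      · rfl
      · exact TL_gt (by omega)
    rw [this]
    ring
  · rw [TL_gt hia, TL_gt (show a < i + 1 by omega)]
    have : dn (fun b => TL s c v m b i) a = 0 := by
      rcases a with _ | a
      · rfl
      · exact TL_gt (by omega)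
    rw [this]
    ring

/-- defect of an eigenvector -/
noncomputable def df (s : Bool) (c : Col) (v : ℂ) (m : ℕ) (t : ℂ) (f : ℕ → ℂ) (a : ℕ) : ℂ :=
  tau ((po s c : ℤ) + c.2.1 - 1) v a * f a + gam s c v m a * dn f a - t * f a

/-- the matrices intertwine -/
theorem inter {v : ℂ} (hv : v ≠ 0) (s t : Bool) (c : Col) {m : ℕ} (h : Nz v m) (μ : ℂ)
    (f g : ℕ → ℂ) (hg : ∀ a ≤ m, g a = ∑ i ∈ range (m + 1), TL s c v m a i * f i) {a : ℕ}
    (ha : a ≤ m) :
    df s (sw (s, t) c) v m μ g a = ∑ i ∈ range (m + 1), TL s c v m a i * df s c v m μ f i := by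
  have e0 : (po s (sw (s, t) c) : ℤ) + (sw (s, t) c).2.1 - 1 = (po s c : ℤ) + c.2.1 - 1 := by
    rw [po_sw, sw_mid]
    ring
  have e1 : dn g a = ∑ i ∈ range (m + 1), dn (fun b => TL s c v m b i) a * f i := by
    rcases a with _ | a
    · simp [dn]
    · exact hg a (by omega)
  unfold df
  rw [e0, e1, hg a ha, mul_sum, mul_sum, mul_sum, ← sum_add_distrib, ← sum_sub_distrib]
  have e2 : ∀ i ∈ range (m + 1), tau ((po s c : ℤ) + c.2.1 - 1) v a * (TL s c v m a i * f i) +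
      gam s (sw (s, t) c) v m a * (dn (fun b => TL s c v m b i) a * f i) -
        μ * (TL s c v m a i * f i) =
      TL s c v m a i * (tau ((po s c : ℤ) + c.2.1 - 1) v i * f i - μ * f i) +
        TL s c v m a (i + 1) * gam s c v m (i + 1) * dn f (i + 1) := by
    intro i _
    have := comm hv s t c h (a := a) (i := i) ha
    rw [show dn f (i + 1) = f i from rfl]
    linear_combination (-(f i)) * this
  have e3 : ∀ i ∈ range (m + 1), TL s c v m a i *
      (tau ((po s c : ℤ) + c.2.1 - 1) v i * f i + gam s c v m i * dn f i - μ * f i) =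
      TL s c v m a i * (tau ((po s c : ℤ) + c.2.1 - 1) v i * f i - μ * f i) +
        TL s c v m a i * gam s c v m i * dn f i := by
    intro i _
    ring
  rw [sum_congr rfl e2, sum_congr rfl e3, sum_add_distrib, sum_add_distrib]
  congr 1
  have e4 := sum_range_succ' (fun i => TL s c v m a i * gam s c v m i * dn f i) (m + 1)
  have e5 := sum_range_succ (fun i => TL s c v m a i * gam s c v m i * dn f i) (m + 1)
  rw [e5] at e4
  rw [TL_gt (show a < m + 1 by omega)] at e4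
  simp only [dn, mul_zero, zero_mul, add_zero] at e4 ⊢
  exact e4.symm

lemma TL_sum {v : ℂ} (s : Bool) (c : Col) {m : ℕ} (f : ℕ → ℂ) {a : ℕ} (ha : a ≤ m)
    (hf : ∀ i < a, f i = 0) :
    ∑ i ∈ range (m + 1), TL s c v m a i * f i = TL s c v m a a * f a := by
  refine sum_eq_single a (fun i hi hne => ?_) fun hn => absurd (mem_range.2 (by omega)) hn
  rcases lt_or_gt_of_ne hne with h1 | h1
  · rw [hf i h1, mul_zero]
  · rw [TL_gt h1, zero_mul]

lemma TL_diag {v : ℂ} (hv1 : ‖v‖ = 1) (s : Bool) (c : Col) {m : ℕ} (h : Nz v m) {a : ℕ}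
    (ha : a ≤ m) : ‖TL s c v m a a‖ = 1 := by
  unfold TL
  rw [if_pos le_rfl, Nat.sub_self, sb_zero h (by omega), mul_one, norm_mul, norm_pow, norm_neg,
    norm_one, one_pow, one_mul, norm_zpow, hv1, _root_.one_zpow]

/-- injectivity of the triangular matrices -/
lemma TL_inj {v : ℂ} (hv1 : ‖v‖ = 1) (s : Bool) (c : Col) {m : ℕ} (h : Nz v m) (f : ℕ → ℂ) (n : ℕ)
    (hf : ∀ a < n, a ≤ m → ∑ i ∈ range (m + 1), TL s c v m a i * f i = 0) :
    ∀ a < n, a ≤ m → f a = 0 := by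
  intro a
  induction a using Nat.strong_induction_on with
  | _ a ih =>
    intro han ham
    have h1 := hf a han ham
    rw [TL_sum s c f ham fun i hi => ih i hi (by omega) (by omega)] at h1
    have h2 : TL s c v m a a ≠ 0 := by
      rw [← norm_ne_zero_iff, TL_diag hv1 s c h ham]
      norm_num
    exact (mul_eq_zero.1 h1).resolve_left h2

/-- eigenvector of the channel `j` -/
def Cj (s : Bool) (c : Col) (v : ℂ) (m j : ℕ) (f : ℕ → ℂ) : Prop :=
  (∀ a < j, a ≤ m → f a = 0) ∧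
    ∀ a ≤ m, df s c v m (tau ((po s c : ℤ) + c.2.1 - 1) v j) f a = 0

lemma Cj_fwd {v : ℂ} (hv : v ≠ 0) (hv1 : ‖v‖ = 1) (s t : Bool) (c : Col) {m : ℕ} (h : Nz v m)
    {j : ℕ} (hj : j ≤ m) (f g : ℕ → ℂ)
    (hg : ∀ a ≤ m, g a = ∑ i ∈ range (m + 1), TL s c v m a i * f i) (hf : Cj s c v m j f) :
    Cj s (sw (s, t) c) v m j g ∧ ‖g j‖ = ‖f j‖ := by
  have e0 : (po s (sw (s, t) c) : ℤ) + (sw (s, t) c).2.1 - 1 = (po s c : ℤ) + c.2.1 - 1 := by
    rw [po_sw, sw_mid]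
    ring
  refine ⟨⟨fun a ha ham => ?_, fun a ha => ?_⟩, ?_⟩
  · rw [hg a ham, TL_sum s c f ham fun i hi => hf.1 i (by omega) (by omega), hf.1 a ha ham, mul_zero]
  · rw [e0, inter hv s t c h _ f g hg ha]
    refine sum_eq_zero fun i hi => ?_
    rw [hf.2 i (by have := mem_range.1 hi; omega), mul_zero]
  · rw [hg j hj, TL_sum s c f hj fun i hi => hf.1 i hi (by omega), norm_mul, TL_diag hv1 s c h hj,
      one_mul]

lemma Cj_bwd {v : ℂ} (hv : v ≠ 0) (hv1 : ‖v‖ = 1) (s t : Bool) (c : Col) {m : ℕ} (h : Nz v m)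
    {j : ℕ} (hj : j ≤ m) (f g : ℕ → ℂ)
    (hg : ∀ a ≤ m, g a = ∑ i ∈ range (m + 1), TL s c v m a i * f i)
    (hf : Cj s (sw (s, t) c) v m j g) :
    Cj s c v m j f ∧ ‖f j‖ = ‖g j‖ := by
  have e0 : (po s (sw (s, t) c) : ℤ) + (sw (s, t) c).2.1 - 1 = (po s c : ℤ) + c.2.1 - 1 := by
    rw [po_sw, sw_mid]
    ring
  have hz : ∀ a < j, a ≤ m → f a = 0 := TL_inj hv1 s c h f j fun a ha ham => by
    rw [← hg a ham]
    exact hf.1 a ha ham
  refine ⟨⟨hz, fun a ha => ?_⟩, ?_⟩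
  · refine TL_inj hv1 s c h _ (m + 1) (fun a _ ham => ?_) a (by omega) ha
    rw [← inter hv s t c h _ f g hg ham, ← e0]
    exact hf.2 a ham
  · rw [hg j hj, TL_sum s c f hj fun i hi => hz i hi (by omega), norm_mul, TL_diag hv1 s c h hj,
      one_mul]

end Pool.Agent.U909.CY
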