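import Pool.Agent.U909.CY.Key
import Pool.Agent.R807.TQ5
import Pool.Agent.N830.TV.Closed

/-!
# Growth: the uniform bound for the powers of a letter
-/

set_option autoImplicit false

namespace Pool.Agent.U909.CY

open Finset Filter
open Pool.Agent.H550R3.Jones (br brf)
open Pool.Agent.W707.TV (vh Rh Rh_pos vh_ne br_vh_ne brf_vh_ne)
open Pool.Agent.Y482.CY (sb Nz Fn)
open Pool.Agent.Y482.CW
open Pool.Agent.R807.TQ (P P_nonneg P_le oct lmax lmin brf_split Hw syw bd_ev Hw_FL Hw_FW Bd rep_bound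
  lob_rfl)
open GapVol (lob)
open EvenVol.LobIneq (lob_neg)
open scoped Real Topology

lemma br_low {M k : ℕ} (h1 : 1 ≤ k) (h2 : k ≤ M) : 2 / Rh M ≤ ‖br (vh M) (k : ℤ)‖ := by
  have hp := Real.pi_pos
  have hR := Rh_pos M
  have hRe : Rh M = M + 1 / 2 := rfl
  have hnorm : ‖br (vh M) (k : ℤ)‖ = |2 * Real.sin (π * k / Rh M)| :=
    Pool.Agent.W125.TV.norm_br_vh M k
  rw [hnorm]
  have hk1 : (1 : ℝ) ≤ k := by exact_mod_cast h1
  have hk2 : (k : ℝ) ≤ M := by exact_mod_cast h2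
  have hx0 : 0 ≤ π * k / Rh M := by positivity
  have hx1 : π * k / Rh M ≤ π - π / (2 * Rh M) := by
    rw [div_le_iff₀ hR]
    have : (π - π / (2 * Rh M)) * Rh M = π * Rh M - π / 2 := by
      field_simp
    rw [this, hRe]
    nlinarith
  have hs : 1 / Rh M ≤ Real.sin (π * k / Rh M) := by
    by_cases hc : π * k / Rh M ≤ π / 2
    · have h3 := Real.mul_le_sin hx0 hc
      refine le_trans ?_ h3
      have : 2 / π * (π * k / Rh M) = 2 * k / Rh M := by field_simp
      rw [this]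
      exact div_le_div_of_nonneg_right (by linarith) hR.le
    · push Not at hc
      have h3 := Real.mul_le_sin (x := π - π * k / Rh M) (by
        have : 0 ≤ π / (2 * Rh M) := by positivity
        linarith) (by linarith)
      rw [Real.sin_pi_sub] at h3
      refine le_trans ?_ h3
      have h4 : π / (2 * Rh M) ≤ π - π * k / Rh M := by linarith
      have h5 := mul_le_mul_of_nonneg_left h4 (show 0 ≤ 2 / π by positivity)
      have h6 : 2 / π * (π / (2 * Rh M)) = 1 / Rh M := by field_simp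
      rw [h6] at h5
      exact h5
  have h0 : 0 ≤ 2 * Real.sin (π * k / Rh M) := by
    have : 0 ≤ 1 / Rh M := by positivity
    linarith
  rw [abs_of_nonneg h0]
  have : 2 / Rh M = 2 * (1 / Rh M) := by ring
  rw [this]
  linarith

/-- the bounds of the factorials -/
lemma kd {M : ℕ} {δ : ℝ} (hB : ∀ k : ℕ, k < 2 * M + 1 →
    |Real.log ‖EvenVol.brf (vh M) k‖ + Rh M / π * lob (π * k / Rh M)| ≤ δ * M) :
    Kd (vh M) M (Real.exp (Rh M / π * (4 * lob (π / 4)) + 5 * (δ * M))) (2 / Rh M)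
      (Real.exp (Rh M / π * lob (π / 6) + δ * M)) := by
  have hp := Real.pi_pos
  have hR := Rh_pos M
  have hRp : 0 ≤ Rh M / π := by positivity
  have hlog : ∀ n : ℕ, n ≤ 2 * M → 0 < ‖brf (vh M) n‖ ∧
      Real.log ‖brf (vh M) n‖ ≤ -(Rh M / π * lob (π * n / Rh M)) + δ * M ∧
      -(Rh M / π * lob (π * n / Rh M)) - δ * M ≤ Real.log ‖brf (vh M) n‖ := by
    intro n hn
    have b := abs_le.1 (hB n (by omega))
    change -(δ * M) ≤ Real.log ‖brf (vh M) n‖ + _ ∧ Real.log ‖brf (vh M) n‖ + _ ≤ _ at b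
    exact ⟨norm_pos_iff.2 (brf_vh_ne (by omega)), by linarith [b.2], by linarith [b.1]⟩
  refine ⟨Real.exp_pos _, by positivity, Real.exp_pos _, ?_, ?_, ?_, ?_, ?_⟩
  · intro u hu
    obtain ⟨h1, h2, h3⟩ := hlog u hu
    have h4 := mul_le_mul_of_nonneg_left (lmax (π * u / Rh M)) hRp
    have h5 : 0 ≤ Rh M / π * lob (π / 6) + δ * M + Real.log ‖brf (vh M) u‖ := by linarith
    calc (1 : ℝ) = Real.exp 0 := Real.exp_zero.symm
      _ ≤ Real.exp (Rh M / π * lob (π / 6) + δ * M + Real.log ‖brf (vh M) u‖) :=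
          Real.exp_le_exp.2 h5
      _ = _ := by rw [Real.exp_add _ (Real.log _), Real.exp_log h1]
  · intro E u hu
    exact P_le hB E u hu
  · intro u w huw
    obtain ⟨a1, a2, a3⟩ := hlog (u + w) huw
    obtain ⟨b1, b2, b3⟩ := hlog u (by omega)
    obtain ⟨c1, c2, c3⟩ := hlog w (by omega)
    rw [← Real.log_le_log_iff a1 (by positivity), Real.log_mul (Real.exp_pos _).ne' (by positivity),
      Real.log_exp, Real.log_pow, Real.log_mul c1.ne' b1.ne']
    have o := oct (π * (u : ℝ) / Rh M) (-(π * ((u + w : ℕ) : ℝ) / Rh M))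
    have e : π * (u : ℝ) / Rh M + -(π * ((u + w : ℕ) : ℝ) / Rh M) = -(π * (w : ℝ) / Rh M) := by
      push_cast
      ring
    rw [e, lob_neg, lob_neg] at o
    have o2 := mul_le_mul_of_nonneg_left o hRp
    push_cast at a2 o2 ⊢
    nlinarith [a2, b3, c3, o2]
  · intro E n hn hE
    obtain ⟨a1, a2, a3⟩ := hlog n (by omega)
    obtain ⟨b1, b2, b3⟩ := hlog E hE
    obtain ⟨c1, c2, c3⟩ := hlog (E - n) (by omega)
    have h0 := brf_split (vh M) hn
    have h1 : P (vh M) E n = ‖brf (vh M) E‖ / ‖brf (vh M) (E - n)‖ := by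
      rw [h0]
      field_simp
    rw [h1, ← Real.log_le_log_iff a1 (by positivity), Real.log_mul (Real.exp_pos _).ne' (by positivity),
      Real.log_exp, Real.log_pow, Real.log_div b1.ne' c1.ne']
    have o := oct (π * (E : ℝ) / Rh M) (-(π * (n : ℝ) / Rh M))
    have e : π * (E : ℝ) / Rh M + -(π * (n : ℝ) / Rh M) = π * ((E - n : ℕ) : ℝ) / Rh M := by
      rw [Nat.cast_sub hn]
      ring
    rw [e, lob_neg] at o
    have o2 := mul_le_mul_of_nonneg_left o hRp
    push_cast at o2 ⊢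
    nlinarith [a2, b3, c2, o2]
  · intro k h1 h2
    exact br_low h1 h2

lemma poly_exp (C : ℝ) {η : ℝ} (hη : 0 < η) :
    ∀ᶠ M : ℕ in atTop, 2 * (2 * (M : ℝ) + 1) ^ 3 * Real.exp C ≤ Real.exp (η * M) := by
  have h1 := (isLittleO_pow_exp_pos_mul_atTop (k := 3) hη).bound
    (c := 1 / (54 * Real.exp C)) (by positivity)
  have h2 := tendsto_natCast_atTop_atTop (R := ℝ) |>.eventually h1
  filter_upwards [h2, eventually_ge_atTop 1] with M hM hM1
  have hM2 : (1 : ℝ) ≤ M := by exact_mod_cast hM1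
  rw [Real.norm_of_nonneg (by positivity), Real.norm_of_nonneg (Real.exp_pos _).le,
    div_mul_eq_mul_div, one_mul, le_div_iff₀ (by positivity)] at hM
  refine le_trans ?_ hM
  have h3 : (2 * (M : ℝ) + 1) ^ 3 ≤ (3 * M) ^ 3 := pow_le_pow_left₀ (by positivity) (by linarith) 3
  have := Real.exp_pos C
  calc 2 * (2 * (M : ℝ) + 1) ^ 3 * Real.exp C ≤ 2 * (3 * M) ^ 3 * Real.exp C := by gcongr
    _ = (M : ℝ) ^ 3 * (54 * Real.exp C) := by ring

/-- the uniform bounds -/
theorem b4_ev {η : ℝ} (hη : 0 < η) : ∀ᶠ M : ℕ in atTop,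
    (∀ (s t : Bool) (n : ℕ) (c : Col) (m : ℕ) (x : Fn), Ok M c →
      swW (List.replicate n (s, t)) c = c → m ≤ 2 * M → Hv (vh M) c m x →
      Nn (vh M) m (FW (List.replicate n (s, t)) c (vh M) x) ≤
        Real.exp (M / (2 * π) * (16 * lob (π / 4)) + η * M) * Nn (vh M) m x) ∧
    (∀ (s t : Bool) (n : ℕ) (c : Col) (m : ℕ) (x : Fn), Ok M c → m ≤ 2 * M → Hv (vh M) c m x →
      Nn (vh M) m (FW (List.replicate (2 * n + 1) (s, t)) c (vh M) x) ≤
        Real.exp (M / (2 * π) * (16 * lob (π / 4) + 2 * lob (π / 6)) + η * M) * Nn (vh M) m x) := by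
  have hp := Real.pi_pos
  obtain ⟨l4, hl4⟩ : ∃ l4 : ℝ, l4 = lob (π / 4) := ⟨_, rfl⟩
  obtain ⟨l6, hl6⟩ : ∃ l6 : ℝ, l6 = lob (π / 6) := ⟨_, rfl⟩
  obtain ⟨δ, hδd⟩ : ∃ δ : ℝ, δ = η / 22 := ⟨_, rfl⟩
  have hδ : 0 < δ := by rw [hδd]; positivity
  filter_upwards [Pool.Agent.W125.TV.brf_asymp δ hδ, poly_exp (4 * l4 / π) (half_pos hη),
    poly_exp (4 * l4 / π + l6 / (2 * π)) (half_pos hη), eventually_ge_atTop 1] with M hbrf hP1 hP2 hM1
  have hv := vh_ne M
  have hv1 := Pool.Agent.Y812.CY.vh_norm M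
  have hNz : Nz (vh M) (2 * M) := by
    intro l hl hl2
    exact br_vh_ne (by exact_mod_cast hl) (by omega)
  have hR : Rh M = M + 1 / 2 := rfl
  have hMr : (1 : ℝ) ≤ M := by exact_mod_cast hM1
  have hk := kd hbrf
  obtain ⟨B, hB⟩ : ∃ B : ℝ, B = Real.exp (Rh M / π * (4 * lob (π / 4)) + 5 * (δ * M)) := ⟨_, rfl⟩
  obtain ⟨G, hG⟩ : ∃ G : ℝ, G = Real.exp (Rh M / π * lob (π / 6) + δ * M) := ⟨_, rfl⟩
  rw [← hB, ← hG] at hk
  have hB0 := hk.B0
  have hG0 := hk.G0
  -- the square root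
  have hs : 1 / √(2 / Rh M) ≤ 2 * M + 1 := by
    have h0 : 0 < 2 / Rh M := by rw [hR]; positivity
    have h1 : 1 / (2 * (M : ℝ) + 1) ≤ √(2 / Rh M) := by
      refine Real.le_sqrt_of_sq_le ?_
      rw [hR]
      have : (2 : ℝ) / (M + 1 / 2) = 4 / (2 * M + 1) := by
        field_simp
        ring
      rw [this, div_pow, one_pow, div_le_div_iff₀ (by positivity) (by positivity)]
      nlinarith
    rw [div_le_iff₀ (Real.sqrt_pos.2 h0)]
    have h2 := mul_le_mul_of_nonneg_left h1 (show 0 ≤ 2 * (M : ℝ) + 1 by positivity)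
    rwa [mul_one_div_cancel (by positivity)] at h2
  have hB2 : B ^ 2 = Real.exp (M / (2 * π) * (16 * l4) + 4 * l4 / π + 10 * δ * M) := by
    rw [hB, ← Real.exp_nat_mul, ← hl4, hR]
    congr 1
    push_cast
    field_simp
    ring
  have hG2 : G = Real.exp (M / (2 * π) * (2 * l6) + l6 / (2 * π) + δ * M) := by
    rw [hG, ← hl6, hR]
    congr 1
    field_simp
  have hm1 : ∀ m : ℕ, m ≤ 2 * M → ((m : ℝ) + 1) ^ 2 ≤ (2 * M + 1) ^ 2 := by
    intro m hm
    have : (m : ℝ) ≤ 2 * M := by exact_mod_cast hm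
    exact pow_le_pow_left₀ (by positivity) (by linarith) 2
  have hδη : 11 * δ * M ≤ η / 2 * M := by
    rw [hδd]
    nlinarith
  constructor
  · intro s t n c m x hc hcc hm hx
    refine (ret_bound hv hv1 hNz hk s t n hc hcc hm hx).trans ?_
    refine mul_le_mul_of_nonneg_right ?_ (Pool.Agent.Y547.CW.Nn_nonneg _ _ _)
    calc ((m : ℝ) + 1) ^ 2 * (2 * B ^ 2 / √(2 / Rh M))
        = ((m : ℝ) + 1) ^ 2 * (1 / √(2 / Rh M)) * (2 * B ^ 2) := by ring
      _ ≤ (2 * M + 1) ^ 2 * (2 * M + 1) * (2 * B ^ 2) := by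
          refine mul_le_mul_of_nonneg_right ?_ (by positivity)
          exact mul_le_mul (hm1 m hm) hs (by positivity) (by positivity)
      _ = (2 * (2 * (M : ℝ) + 1) ^ 3 * Real.exp (4 * l4 / π)) *
          Real.exp (M / (2 * π) * (16 * l4) + 10 * δ * M) := by
          rw [hB2, mul_assoc (2 * (2 * (M : ℝ) + 1) ^ 3), ← Real.exp_add]
          have : 4 * l4 / π + (M / (2 * π) * (16 * l4) + 10 * δ * M) =
            M / (2 * π) * (16 * l4) + 4 * l4 / π + 10 * δ * M := by ring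
          rw [this]
          ring
      _ ≤ Real.exp (η / 2 * M) * Real.exp (M / (2 * π) * (16 * l4) + 10 * δ * M) :=
          mul_le_mul_of_nonneg_right hP1 (Real.exp_pos _).le
      _ ≤ Real.exp (M / (2 * π) * (16 * lob (π / 4)) + η * M) := by
          rw [← Real.exp_add, ← hl4]
          apply Real.exp_le_exp.2
          have : 0 ≤ δ * M := by positivity
          linarith
  · intro s t n c m x hc hm hx
    refine (odd_bound hv hv1 hNz hk s t n hc hm hx).trans ?_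
    refine mul_le_mul_of_nonneg_right ?_ (Pool.Agent.Y547.CW.Nn_nonneg _ _ _)
    calc ((m : ℝ) + 1) ^ 2 * (2 * B ^ 2 * G / √(2 / Rh M))
        = ((m : ℝ) + 1) ^ 2 * (1 / √(2 / Rh M)) * (2 * (B ^ 2 * G)) := by ring
      _ ≤ (2 * M + 1) ^ 2 * (2 * M + 1) * (2 * (B ^ 2 * G)) := by
          refine mul_le_mul_of_nonneg_right ?_ (by positivity)
          exact mul_le_mul (hm1 m hm) hs (by positivity) (by positivity)
      _ = (2 * (2 * (M : ℝ) + 1) ^ 3 * Real.exp (4 * l4 / π + l6 / (2 * π))) *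
          Real.exp (M / (2 * π) * (16 * l4 + 2 * l6) + 11 * δ * M) := by
          rw [hB2, hG2, ← Real.exp_add, mul_assoc (2 * (2 * (M : ℝ) + 1) ^ 3), ← Real.exp_add]
          have : 4 * l4 / π + l6 / (2 * π) + (M / (2 * π) * (16 * l4 + 2 * l6) + 11 * δ * M) =
            M / (2 * π) * (16 * l4) + 4 * l4 / π + 10 * δ * M +
              (M / (2 * π) * (2 * l6) + l6 / (2 * π) + δ * M) := by ring
          rw [this]
          ring
      _ ≤ Real.exp (η / 2 * M) * Real.exp (M / (2 * π) * (16 * l4 + 2 * l6) + 11 * δ * M) :=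
          mul_le_mul_of_nonneg_right hP2 (Real.exp_pos _).le
      _ ≤ Real.exp (M / (2 * π) * (16 * lob (π / 4) + 2 * lob (π / 6)) + η * M) := by
          rw [← Real.exp_add, ← hl4, ← hl6]
          apply Real.exp_le_exp.2
          linarith

end Pool.Agent.U909.CY
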