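import Pool.Agent.U909.CY.Asy

/-!
# Odd powers of the letters: the balanced norm
-/

set_option autoImplicit false

namespace Pool.Agent.U909.CY

open Finset Filter
open Pool.Agent.H550R3.Jones (br brf)
open Pool.Agent.W707.TV (vh Rh Rh_pos vh_ne br_vh_ne brf_vh_ne)
open Pool.Agent.Y482.CY (sb Nz Fn)
open Pool.Agent.Y482.CW
open Pool.Agent.Y681.CY (W W_pos)
open Pool.Agent.Y333.CW (brf_ne brf_succ)
open Pool.Agent.R807.TQ (P P_nonneg brf_split lob_rfl)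
open GapVol (lob)
open EvenVol.LobIneq (lob_neg lob_per)
open scoped Real Topology

/-- the tangent of Lobachevsky's function at `π/4` -/
lemma tang {x : ℝ} (h0 : 0 ≤ x) (h1 : x ≤ π / 2) :
    lob x ≤ lob (π / 4) - Real.log 2 / 2 * (x - π / 4) := by
  have hp := Real.pi_pos
  have hg : GapVol.g (π / 4) = -(Real.log 2 / 2) := by
    have e : GapVol.g (π / 4) = -Real.log (2 * Real.sin (π / 4)) := rfl
    rw [e, Real.sin_pi_div_four]
    have e2 : 2 * (√2 / 2) = √2 := by ring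
    rw [e2, Real.log_sqrt (by norm_num)]
  have e := GapVol.lob_sub (π / 4) x
  rcases le_total (π / 4) x with h | h
  · have h3 : ∫ t in (π / 4)..x, GapVol.g t ≤ ∫ _t in (π / 4)..x, -(Real.log 2 / 2) := by
      apply intervalIntegral.integral_mono_on h (GapVol.g_int _ _) (by simp)
      intro t ht
      rw [← hg]
      exact GapVol.g_anti (by positivity) ht.1 (ht.2.trans h1)
    rw [intervalIntegral.integral_const, smul_eq_mul] at h3
    linarith
  · have h3 : ∫ _t in x..(π / 4), -(Real.log 2 / 2) ≤ ∫ t in x..(π / 4), GapVol.g t := by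
      apply intervalIntegral.integral_mono_on_of_le_Ioo h (by simp) (GapVol.g_int _ _)
      intro t ht
      rw [← hg]
      exact GapVol.g_anti (lt_of_le_of_lt h0 ht.1) ht.2.le (by linarith)
    rw [intervalIntegral.integral_const, smul_eq_mul] at h3
    rw [intervalIntegral.integral_symm] at e
    linarith

/-- the inequality for one factor -/
lemma ast {y w : ℝ} (h0 : 0 ≤ w) (h1 : w ≤ y) (h2 : y ≤ π) :
    lob w + lob (y - w) - lob y ≤ 2 * lob (π / 4) + Real.log 2 / 2 * (y - π / 2) := by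
  have hp := Real.pi_pos
  have hz : lob (π / 2) = 0 := by
    have := lob_rfl (π / 2)
    rw [show π - π / 2 = π / 2 by ring] at this
    linarith
  have c : lob w + lob (y - w) ≤ 2 * lob (y / 2) := by
    rcases h2.lt_or_eq with h | h
    · have := Pool.Agent.W709.QAT.conc (x := w) (y := y - w) h0 (by linarith) (by linarith)
      rwa [show (w + (y - w)) / 2 = y / 2 by ring] at this
    · rw [h, lob_rfl, hz]
      linarith
  have d := Pool.Agent.W305.VC.lob_two_mul (y / 2)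
  have e1 : lob (y / 2 + π / 2) = -lob (π / 2 - y / 2) := by
    rw [← lob_neg, show y / 2 + π / 2 = -(π / 2 - y / 2) + π by ring, lob_per]
  rw [show 2 * (y / 2) = y by ring, e1] at d
  have t := tang (x := π / 2 - y / 2) (by linarith) (by linarith)
  linarith

/-- the bounds with the balance -/
structure Ke (v : ℂ) (K : ℕ) (D ρ : ℝ) : Prop where
  D0 : 0 < D
  l5 : ∀ E w : ℕ, w ≤ E → E < K →
    P v E w ≤ D * Real.exp (Real.log 2 / 2 * E - ρ) * ‖brf v w‖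
  l6 : ∀ E w : ℕ, w ≤ E → E < K →
    P v E w ≤ D * Real.exp (ρ - Real.log 2 / 2 * (E - w : ℕ)) * ‖brf v w‖

/-- the key inequality with the balance -/
theorem key_bal {v : ℂ} (hv : v ≠ 0) (hv1 : ‖v‖ = 1) {K : ℕ} (hN : Nz v (2 * K)) {B β G D ρ : ℝ}
    (hk : Kd v K B β G) (he : Ke v K D ρ) (s t : Bool) {c : Col} (hc : Ok K c) {m i j a : ℕ}
    (hm : m ≤ 2 * K) (ham : a ≤ m) (hij : i ≤ j) (hja : j ≤ a) (hap : a < c.2.1)
    (hjq : j < po s c) :
    √(W v m a) * (rr s (sw (s, t) c) v m j a * ‖el s c v m j i‖) ≤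
      (2 * B * D ^ 2 / √β * Real.exp (Real.log 2 / 2 * ((c.2.1 : ℝ) - po s c))) * √(W v m i) := by
  have hpK : po s c ≤ K := by
    cases s
    · exact hc.1
    · exact hc.2.2
  have hB := hk.B0
  have hb := hk.b0
  have hD := he.D0
  have hNm : Nz v m := fun l h1 h2 => hN l h1 (by omega)
  rw [prod_rr hv hv1 s c (sw (s, t) c) (by rw [po_sw, sw_mid]; ring) hij hja, po_sw]
  have hQ := denQ hv1 hk (p := c.2.1) (q := po s c) hij hja hap hjq hc.2.1 hpK
  have f0 : (c.2.1 : ℤ) + (po s c : ℤ) - 1 = (po s c : ℤ) + c.2.1 - 1 := by ring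
  rw [f0] at hQ
  have h1 := wt hk hNm hm ham (hij.trans hja)
  have hcK := hc.2.1
  have u1 := he.l5 (c.2.1 - j - 1) (a - j) (by omega) (by omega)
  have u2 := he.l6 (po s c - i - 1) (j - i) (by omega) (by omega)
  have c1 : ((c.2.1 - j - 1 : ℕ) : ℤ) = (c.2.1 : ℤ) - j - 1 := by omega
  have c2 : ((po s c - i - 1 : ℕ) : ℤ) = (po s c : ℤ) - i - 1 := by omega
  have c3 : po s c - i - 1 - (j - i) = po s c - j - 1 := by omega
  have c4 : ((c.2.1 - j - 1 : ℕ) : ℝ) = (c.2.1 : ℝ) - j - 1 := by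
    have : ((c.2.1 - j - 1 : ℕ) : ℤ) = (c.2.1 : ℤ) - j - 1 := by omega
    exact_mod_cast this
  have c5 : ((po s c - j - 1 : ℕ) : ℝ) = (po s c : ℝ) - j - 1 := by
    have : ((po s c - j - 1 : ℕ) : ℤ) = (po s c : ℤ) - j - 1 := by omega
    exact_mod_cast this
  rw [c1, c4] at u1
  rw [c2, c3, c5] at u2
  have p1 := P_nonneg v ((po s c : ℤ) + c.2.1 - 1 - 2 * j - 1) (a - j)
  have p2 := P_nonneg v ((po s c : ℤ) + c.2.1 - 1 - i - j) (j - i)
  have p3 := P_nonneg v ((c.2.1 : ℤ) - j - 1) (a - j)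
  have p4 := P_nonneg v ((po s c : ℤ) - i - 1) (j - i)
  have hS0 : 0 < ‖brf v (a - i)‖ := norm_pos_iff.2 (brf_ne hNm (by omega))
  have hw0 : 0 < ‖brf v (a - j)‖ := norm_pos_iff.2 (brf_ne hNm (by omega))
  have hu0 : 0 < ‖brf v (j - i)‖ := norm_pos_iff.2 (brf_ne hNm (by omega))
  obtain ⟨S, hS⟩ : ∃ S : ℝ, S = ‖brf v (a - i)‖ := ⟨_, rfl⟩
  obtain ⟨w, hw⟩ : ∃ w : ℝ, w = ‖brf v (a - j)‖ := ⟨_, rfl⟩
  obtain ⟨u, hu⟩ : ∃ u : ℝ, u = ‖brf v (j - i)‖ := ⟨_, rfl⟩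
  obtain ⟨Q1, hQ1⟩ : ∃ Q1 : ℝ, Q1 = P v ((po s c : ℤ) + c.2.1 - 1 - 2 * j - 1) (a - j) := ⟨_, rfl⟩
  obtain ⟨Q2, hQ2⟩ : ∃ Q2 : ℝ, Q2 = P v ((po s c : ℤ) + c.2.1 - 1 - i - j) (j - i) := ⟨_, rfl⟩
  obtain ⟨x1, hx1⟩ : ∃ x1 : ℝ, x1 = P v ((c.2.1 : ℤ) - j - 1) (a - j) := ⟨_, rfl⟩
  obtain ⟨x2, hx2⟩ : ∃ x2 : ℝ, x2 = P v ((po s c : ℤ) - i - 1) (j - i) := ⟨_, rfl⟩
  obtain ⟨x3, hx3⟩ : ∃ x3 : ℝ, x3 = P v ((m : ℤ) - i) (a - i) := ⟨_, rfl⟩
  have hx30 : 0 ≤ x3 := by rw [hx3]; exact P_nonneg _ _ _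
  rw [← hS] at hQ h1 hS0
  rw [← hw] at u1 hw0 ⊢
  rw [← hu] at u2 hu0 ⊢
  rw [← hQ1] at hQ p1 ⊢
  rw [← hQ2] at hQ p2 ⊢
  rw [← hx1] at u1 p3 ⊢
  rw [← hx2] at u2 p4 ⊢
  rw [← hx3] at h1 ⊢
  have hQ0 : 0 < Q1 * Q2 := by
    rcases (mul_nonneg p1 p2).lt_or_eq with h | h
    · exact h
    · rw [← h] at hQ
      have : 0 < S * β := by positivity
      nlinarith
  have hβ : 0 < √β := Real.sqrt_pos.2 hb
  have h4 : √(B * S) * √β ≤ 2 * B * (Q1 * Q2) := by
    have h5 : (√(B * S) * √β) ^ 2 ≤ (2 * B * (Q1 * Q2)) ^ 2 := by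
      rw [mul_pow, Real.sq_sqrt (by positivity), Real.sq_sqrt hb.le]
      calc B * S * β = B * (S * β) := by ring
        _ ≤ B * (B * (2 * (Q1 * Q2)) ^ 2) := mul_le_mul_of_nonneg_left hQ hB.le
        _ = _ := by ring
    exact abs_le_of_sq_le_sq' h5 (by positivity) |>.2
  obtain ⟨A, hA⟩ : ∃ A : ℝ, A = Real.exp (Real.log 2 / 2 * ((c.2.1 : ℝ) - po s c)) := ⟨_, rfl⟩
  have hA0 : 0 < A := by rw [hA]; exact Real.exp_pos _
  have h6 : x1 * x2 ≤ D ^ 2 * A * (w * u) := by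
    calc x1 * x2 ≤ (D * Real.exp (Real.log 2 / 2 * ((c.2.1 : ℝ) - j - 1) - ρ) * w) *
          (D * Real.exp (ρ - Real.log 2 / 2 * ((po s c : ℝ) - j - 1)) * u) :=
          mul_le_mul u1 u2 p4 (by positivity)
      _ = D ^ 2 * (Real.exp (Real.log 2 / 2 * ((c.2.1 : ℝ) - j - 1) - ρ) *
          Real.exp (ρ - Real.log 2 / 2 * ((po s c : ℝ) - j - 1))) * (w * u) := by ring
      _ = _ := by
          rw [← Real.exp_add, hA]
          congr 3
          ring
  have hW0 : 0 ≤ √(W v m i) := Real.sqrt_nonneg _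
  have hD0 : 0 < w * Q1 * (u * Q2) := by
    have : w * Q1 * (u * Q2) = w * u * (Q1 * Q2) := by ring
    rw [this]
    positivity
  rw [← hA]
  calc √(W v m a) * (x1 * x2 * x3 / (w * Q1 * (u * Q2)))
      = (√(W v m a) * x3) * (x1 * x2) / (w * Q1 * (u * Q2)) := by ring
    _ ≤ (√(B * S) * √(W v m i)) * (D ^ 2 * A * (w * u)) / (w * Q1 * (u * Q2)) := by
        gcongr
    _ = (√(B * S) / (Q1 * Q2)) * (D ^ 2 * A) * √(W v m i) := by
        field_simp
    _ ≤ (2 * B / √β) * (D ^ 2 * A) * √(W v m i) := by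
        refine mul_le_mul_of_nonneg_right (mul_le_mul_of_nonneg_right ?_ (by positivity)) hW0
        rw [div_le_div_iff₀ hQ0 hβ]
        exact h4
    _ = (2 * B * D ^ 2 / √β * A) * √(W v m i) := by ring

/-- odd powers -/
theorem odd_bal {v : ℂ} (hv : v ≠ 0) (hv1 : ‖v‖ = 1) {K : ℕ} (hN : Nz v (2 * K)) {B β G D ρ : ℝ}
    (hk : Kd v K B β G) (he : Ke v K D ρ) (s t : Bool) (n : ℕ) {c : Col} (hc : Ok K c) {m : ℕ}
    (hm : m ≤ 2 * K) {x : Fn} (hx : Hv v c m x) :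
    Nn v m (FW (List.replicate (2 * n + 1) (s, t)) c v x) ≤
      ((m : ℝ) + 1) ^ 2 * (2 * B * D ^ 2 / √β *
        Real.exp (Real.log 2 / 2 * ((c.2.1 : ℝ) - (sw (s, t) c).2.1))) * Nn v m x := by
  have hB := hk.B0
  have hb := hk.b0
  have hD := he.D0
  have hcc : swW (List.replicate (2 * n + 1) (s, t)) c = sw (s, t) c := by
    rw [List.replicate_succ]
    exact swW_even s t n (sw (s, t) c)
  rw [sw_mid]
  exact gen_bound hv hv1 hN (by positivity) s t (2 * n + 1) hc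
    (Pool.Agent.Y547.CW.Ok_sw (s, t) hc) hcc (by rw [sw_mid]; omega) hm hx
    fun i j a h1 h2 h3 h4 h5 => key_bal hv hv1 hN hk he s t hc hm h1 h2 h3 (by rwa [po_sw] at h4)
      (by omega)

lemma ke {M : ℕ} {δ : ℝ} (hB : ∀ k : ℕ, k < 2 * M + 1 →
    |Real.log ‖EvenVol.brf (vh M) k‖ + Rh M / π * lob (π * k / Rh M)| ≤ δ * M) :
    Ke (vh M) M (Real.exp (Rh M / π * (2 * lob (π / 4)) + 3 * (δ * M)))
      (Rh M / 4 * Real.log 2) := by
  have hp := Real.pi_pos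
  have hR := Rh_pos M
  have hRp : 0 ≤ Rh M / π := by positivity
  have hRe : Rh M = M + 1 / 2 := rfl
  have hlog : ∀ n : ℕ, n ≤ 2 * M → 0 < ‖brf (vh M) n‖ ∧
      Real.log ‖brf (vh M) n‖ ≤ -(Rh M / π * lob (π * n / Rh M)) + δ * M ∧
      -(Rh M / π * lob (π * n / Rh M)) - δ * M ≤ Real.log ‖brf (vh M) n‖ := by
    intro n hn
    have b := abs_le.1 (hB n (by omega))
    change -(δ * M) ≤ Real.log ‖brf (vh M) n‖ + _ ∧ Real.log ‖brf (vh M) n‖ + _ ≤ _ at b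
    exact ⟨norm_pos_iff.2 (brf_vh_ne (by omega)), by linarith [b.2], by linarith [b.1]⟩
  have main : ∀ (E w : ℕ), w ≤ E → E < M → ∀ y : ℝ,
      lob (π * (w : ℝ) / Rh M) + lob (π * ((E - w : ℕ) : ℝ) / Rh M) - lob (π * (E : ℝ) / Rh M) ≤
        2 * lob (π / 4) + y →
      P (vh M) E w ≤ Real.exp (Rh M / π * (2 * lob (π / 4)) + 3 * (δ * M)) *
        Real.exp (Rh M / π * y) * ‖brf (vh M) w‖ := by
    intro E w hw hE y hy
    obtain ⟨a1, a2, a3⟩ := hlog E (by omega)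
    obtain ⟨b1, b2, b3⟩ := hlog w (by omega)
    obtain ⟨c1, c2, c3⟩ := hlog (E - w) (by omega)
    have h0 := brf_split (vh M) hw
    have h1 : P (vh M) E w = ‖brf (vh M) E‖ / ‖brf (vh M) (E - w)‖ := by
      rw [h0]
      field_simp
    rw [h1, ← Real.log_le_log_iff (by positivity) (by positivity),
      Real.log_mul (by positivity) b1.ne', Real.log_mul (Real.exp_pos _).ne' (Real.exp_pos _).ne',
      Real.log_exp, Real.log_exp, Real.log_div a1.ne' c1.ne']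
    have o2 := mul_le_mul_of_nonneg_left hy hRp
    nlinarith [a2, b3, c3, o2]
  have hang : ∀ E : ℕ, E < M → π * (E : ℝ) / Rh M ≤ π := by
    intro E hE
    rw [div_le_iff₀ hR, hRe]
    have : (E : ℝ) < M := by exact_mod_cast hE
    nlinarith
  refine ⟨Real.exp_pos _, ?_, ?_⟩
  · intro E w hw hE
    have h1 := ast (w := π * (w : ℝ) / Rh M) (y := π * (E : ℝ) / Rh M) (by positivity)
      (by
        refine div_le_div_of_nonneg_right ?_ hR.le
        have : (w : ℝ) ≤ E := by exact_mod_cast hw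
        nlinarith) (hang E hE)
    have e1 : π * (E : ℝ) / Rh M - π * (w : ℝ) / Rh M = π * ((E - w : ℕ) : ℝ) / Rh M := by
      rw [Nat.cast_sub hw]
      ring
    rw [e1] at h1
    have h2 := main E w hw hE _ h1
    have e2 : Rh M / π * (Real.log 2 / 2 * (π * (E : ℝ) / Rh M - π / 2)) =
        Real.log 2 / 2 * E - Rh M / 4 * Real.log 2 := by
      field_simp
      ring
    rw [e2] at h2
    exact h2
  · intro E w hw hE
    have hE' : (w : ℝ) ≤ E := by exact_mod_cast hw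
    have hEw : ((E - w : ℕ) : ℝ) = E - w := by rw [Nat.cast_sub hw]
    have hsum : π * (w : ℝ) / Rh M + π * ((E - w : ℕ) : ℝ) / Rh M = π * (E : ℝ) / Rh M := by
      rw [hEw]
      ring
    have hle := hang E hE
    have hw0 : 0 ≤ π * (w : ℝ) / Rh M := by positivity
    have hEw0 : 0 ≤ π * ((E - w : ℕ) : ℝ) / Rh M := by positivity
    have h1 := ast (w := π * (w : ℝ) / Rh M) (y := π - π * ((E - w : ℕ) : ℝ) / Rh M) hw0
      (by linarith) (by linarith)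
    have e1 : π - π * ((E - w : ℕ) : ℝ) / Rh M - π * (w : ℝ) / Rh M = π - π * (E : ℝ) / Rh M := by
      linarith
    rw [e1, lob_rfl, lob_rfl] at h1
    have h2 := main E w hw hE (Real.log 2 / 2 * (π - π * ((E - w : ℕ) : ℝ) / Rh M - π / 2))
      (by linarith)
    have e2 : Rh M / π * (Real.log 2 / 2 * (π - π * ((E - w : ℕ) : ℝ) / Rh M - π / 2)) =
        Rh M / 4 * Real.log 2 - Real.log 2 / 2 * (E - w : ℕ) := by
      field_simp
      ring
    rw [e2] at h2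
    exact h2

end Pool.Agent.U909.CY
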