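import Pool.Agent.H550R3.Jones.Stmts

/-!
# Two strands: raising, lowering and Casimir operators
-/

set_option autoImplicit false

namespace Pool.Agent.U909.CY

open Finset
open Pool.Agent.H550R3.Jones (br brf)

lemma br_zero (v : ℂ) : br v 0 = 0 := by simp [br]

/-- `{x} {y}` -/
lemma br_mul {v : ℂ} (hv : v ≠ 0) (x y : ℤ) :
    br v x * br v y = v ^ (x + y) + v ^ (-(x + y)) - v ^ (x - y) - v ^ (-(x - y)) := by
  unfold br
  rw [sub_mul, mul_sub, mul_sub, ← zpow_add₀ hv, ← zpow_add₀ hv, ← zpow_add₀ hv, ← zpow_add₀ hv]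
  have e1 : x + -y = x - y := by ring
  have e2 : -x + y = -(x - y) := by ring
  have e3 : -x + -y = -(x + y) := by ring
  rw [e1, e2, e3]
  ring

/-- `{x + y}` -/
lemma br_add {v : ℂ} (hv : v ≠ 0) (x y : ℤ) :
    br v (x + y) = v ^ y * br v x + v ^ (-x) * br v y := by
  unfold br
  rw [mul_sub, mul_sub, ← zpow_add₀ hv, ← zpow_add₀ hv, ← zpow_add₀ hv, ← zpow_add₀ hv]
  have e1 : y + x = x + y := by ring
  have e2 : y + -x = -x + y := by ring
  have e3 : -x + -y = -(x + y) := by ring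
  rw [e1, e2, e3]
  ring

lemma br_add' {v : ℂ} (hv : v ≠ 0) (x y : ℤ) :
    br v (x + y) = v ^ (-y) * br v x + v ^ x * br v y := by
  rw [add_comm x y, br_add hv y x]
  ring

/-- shift by one -/
def dn (f : ℕ → ℂ) : ℕ → ℂ
  | 0 => 0
  | n + 1 => f n

/-- raising operator on two strands -/
noncomputable def E2 (q : ℤ) (v : ℂ) (y : ℕ → ℕ → ℂ) : ℕ → ℕ → ℂ := fun i l =>
  v ^ (q - 1 - 2 * l) * br v ((i : ℤ) + 1) * y (i + 1) l + br v ((l : ℤ) + 1) * y i (l + 1)

/-- lowering operator on two strands -/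
noncomputable def F2 (p q : ℤ) (v : ℂ) (y : ℕ → ℕ → ℂ) : ℕ → ℕ → ℂ := fun i l =>
  br v (p - i) * dn (fun i => y i l) i + v ^ (-(p - 1 - 2 * i)) * br v (q - l) * dn (y i) l

/-- eigenvalues of the Casimir operator, `S = p + q - 1` -/
noncomputable def tau (S : ℤ) (v : ℂ) (n : ℤ) : ℂ := v ^ (S - 2 * n) + v ^ (-(S - 2 * n))

lemma tau_sub {v : ℂ} (hv : v ≠ 0) (S i a : ℤ) :
    tau S v i - tau S v a = br v (a - i) * br v (S - i - a) := by
  rw [br_mul hv]
  unfold tau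
  have e1 : a - i + (S - i - a) = S - 2 * i := by ring
  have e2 : a - i - (S - i - a) = -(S - 2 * a) := by ring
  rw [e1, e2, neg_neg]
  ring

/-- Casimir operator of two strands -/
noncomputable def C2 (p q : ℤ) (v : ℂ) (y : ℕ → ℕ → ℂ) : ℕ → ℕ → ℂ := fun i l =>
  F2 p q v (E2 q v y) i l + tau (p + q - 1) v ((i : ℤ) + l) * y i l

theorem EF {v : ℂ} (hv : v ≠ 0) (p q : ℤ) (y : ℕ → ℕ → ℂ) (i l : ℕ) :
    E2 q v (F2 p q v y) i l - F2 p q v (E2 q v y) i l =
      br v 1 * br v (p + q - 2 - 2 * i - 2 * l) * y i l := by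
  have hP : v ^ p ≠ 0 := zpow_ne_zero _ hv
  have hQ : v ^ q ≠ 0 := zpow_ne_zero _ hv
  rcases i with _ | i <;> rcases l with _ | l
  all_goals
    simp only [E2, F2, dn]
    push_cast
    simp only [br, two_mul, neg_sub, neg_add_rev, zpow_add₀ hv, zpow_sub₀ hv, zpow_neg, zpow_one,
      zpow_natCast, zpow_zero]
    field_simp
    ring

lemma E2_wt (q : ℤ) (v : ℂ) (g : ℕ → ℂ) (y : ℕ → ℕ → ℂ) (i l : ℕ) :
    E2 q v (fun i l => g (i + l) * y i l) i l = g (i + l + 1) * E2 q v y i l := by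
  simp only [E2]
  have e1 : i + 1 + l = i + l + 1 := by ring
  have e2 : i + (l + 1) = i + l + 1 := by ring
  rw [e1, e2]
  ring

lemma F2_wt (p q : ℤ) (v : ℂ) (g : ℕ → ℂ) (y : ℕ → ℕ → ℂ) (i l : ℕ) :
    F2 p q v (fun i l => g (i + l + 1) * y i l) i l = g (i + l) * F2 p q v y i l := by
  rcases i with _ | i <;> rcases l with _ | l <;> simp only [F2, dn]
  · ring
  · rw [show 0 + (l + 1) = 0 + l + 1 by ring]
    ring
  · rw [show i + 1 + 0 = i + 0 + 1 by ring]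
    ring
  · rw [show i + (l + 1) + 1 = i + 1 + (l + 1) by ring, show i + 1 + l + 1 = i + 1 + (l + 1) by ring]
    ring

/-- the Casimir operator commutes with functions of the weight -/
lemma C2_wt (p q : ℤ) (v : ℂ) (g : ℕ → ℂ) (y : ℕ → ℕ → ℂ) (i l : ℕ) :
    C2 p q v (fun i l => g (i + l) * y i l) i l = g (i + l) * C2 p q v y i l := by
  unfold C2
  have e : E2 q v (fun i l => g (i + l) * y i l) = fun i l => g (i + l + 1) * E2 q v y i l := by
    funext i l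
    exact E2_wt q v g y i l
  rw [e, F2_wt]
  ring

lemma E2_add (q : ℤ) (v : ℂ) (y z : ℕ → ℕ → ℂ) : E2 q v (y + z) = E2 q v y + E2 q v z := by
  funext i l
  simp only [E2, Pi.add_apply]
  ring

lemma F2_add (p q : ℤ) (v : ℂ) (y z : ℕ → ℕ → ℂ) : F2 p q v (y + z) = F2 p q v y + F2 p q v z := by
  funext i l
  rcases i with _ | i <;> rcases l with _ | l <;> simp only [F2, dn, Pi.add_apply] <;> ring

lemma C2_add (p q : ℤ) (v : ℂ) (y z : ℕ → ℕ → ℂ) : C2 p q v (y + z) = C2 p q v y + C2 p q v z := by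
  funext i l
  simp only [C2, E2_add, F2_add, Pi.add_apply]
  ring

lemma C2_smul (p q : ℤ) (v s : ℂ) (y : ℕ → ℕ → ℂ) : C2 p q v (s • y) = s • C2 p q v y := by
  funext i l
  exact C2_wt p q v (fun _ => s) y i l

lemma C2_zero (p q : ℤ) (v : ℂ) : C2 p q v 0 = 0 := by
  have h := C2_smul p q v 0 0
  simpa using h

/-- the Casimir operator commutes with the raising operator -/
theorem C2_E2 {v : ℂ} (hv : v ≠ 0) (p q : ℤ) (y : ℕ → ℕ → ℂ) :
    E2 q v (C2 p q v y) = C2 p q v (E2 q v y) := by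
  funext i l
  have h0 : C2 p q v y = F2 p q v (E2 q v y) + fun i l => tau (p + q - 1) v ((i + l : ℕ) : ℤ) * y i l := by
    funext i l
    simp only [C2, Pi.add_apply]
    push_cast
    rfl
  rw [h0, E2_add]
  have h1 := EF hv p q (E2 q v y) i l
  have h2 := E2_wt q v (fun n => tau (p + q - 1) v (n : ℤ)) y i l
  have h3 := tau_sub hv (p + q - 1) ((i + l : ℕ) : ℤ) ((i + l + 1 : ℕ) : ℤ)
  have e1 : (((i + l + 1 : ℕ) : ℤ) - ((i + l : ℕ) : ℤ)) = 1 := by push_cast; ring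
  have e2 : (p + q - 1 - ((i + l : ℕ) : ℤ) - ((i + l + 1 : ℕ) : ℤ)) = p + q - 2 - 2 * i - 2 * l := by
    push_cast; ring
  rw [e1, e2] at h3
  rw [Pi.add_apply, Pi.add_apply, h2]
  unfold C2
  have e3 : ((i : ℤ) + l) = ((i + l : ℕ) : ℤ) := by push_cast; ring
  rw [e3]
  linear_combination h1 - h3 * E2 q v y i l

end Pool.Agent.U909.CY
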