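import Pool.Agent.Y482.CW.Defs
import Pool.Agent.U909.CY.Two

/-!
# The Casimir operators of two of the three strands on highest weight vectors
-/

set_option autoImplicit false

namespace Pool.Agent.U909.CY

open Finset
open Pool.Agent.H550R3.Jones (br brf)
open Pool.Agent.Y482.CY (sb Nz Fn)
open Pool.Agent.Y482.CW

/-- the Casimir operator of the strands one and two (`false`), two and three (`true`) -/
noncomputable def Cs (s : Bool) (c : Col) (v : ℂ) (x : Fn) : Fn :=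
  match s with
  | false => fun i l k => C2 c.1 c.2.1 v (fun i l => x i l k) i l
  | true => fun i l k => C2 c.2.1 c.2.2 v (x i) l k

lemma Cs_add (s : Bool) (c : Col) (v : ℂ) (x y : Fn) : Cs s c v (x + y) = Cs s c v x + Cs s c v y := by
  cases s
  · funext i l k
    exact congrFun (congrFun (C2_add c.1 c.2.1 v (fun i l => x i l k) (fun i l => y i l k)) i) l
  · funext i l k
    exact congrFun (congrFun (C2_add c.2.1 c.2.2 v (x i) (y i)) l) k

lemma Cs_smul (s : Bool) (c : Col) (v t : ℂ) (x : Fn) : Cs s c v (t • x) = t • Cs s c v x := by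
  cases s
  · funext i l k
    exact congrFun (congrFun (C2_smul c.1 c.2.1 v t (fun i l => x i l k)) i) l
  · funext i l k
    exact congrFun (congrFun (C2_smul c.2.1 c.2.2 v t (x i)) l) k

/-- box, level and highest weight -/
def Hv (v : ℂ) (c : Col) (m : ℕ) (x : Fn) : Prop := Bx c x ∧ Lv m x ∧ Eg c v x = 0

lemma Eg12 {v : ℂ} (hv : v ≠ 0) (c : Col) (x : Fn) (a j k : ℕ) :
    Eg c v x a j k = v ^ ((c.2.2 : ℤ) - 1 - 2 * k) * E2 c.2.1 v (fun i l => x i l k) a j +
      br v ((k : ℤ) + 1) * x a j (k + 1) := by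
  unfold Eg E2
  have e : v ^ (((c.2.1 : ℤ) - 1) + ((c.2.2 : ℤ) - 1) - 2 * j - 2 * k) =
      v ^ ((c.2.2 : ℤ) - 1 - 2 * k) * v ^ ((c.2.1 : ℤ) - 1 - 2 * j) := by
    rw [← zpow_add₀ hv]
    congr 1
    ring
  rw [e]
  ring

lemma Eg23 (c : Col) (v : ℂ) (x : Fn) (a j k : ℕ) :
    Eg c v x a j k = v ^ (((c.2.1 : ℤ) - 1) + ((c.2.2 : ℤ) - 1) - 2 * j - 2 * k) *
      br v ((a : ℤ) + 1) * x (a + 1) j k + E2 c.2.2 v (x a) j k := by
  unfold Eg E2
  ring

lemma C2_out {p q : ℕ} {v : ℂ} {y : ℕ → ℕ → ℂ} (hy : ∀ i l : ℕ, ¬ (i < p ∧ l < q) → y i l = 0)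
    (i l : ℕ) (h : ¬ (i < p ∧ l < q)) : C2 p q v y i l = 0 := by
  have hE : ∀ i l : ℕ, (p ≤ i ∨ q ≤ l) → E2 q v y i l = 0 := by
    intro i l h
    unfold E2
    rw [hy (i + 1) l (by omega), hy i (l + 1) (by omega)]
    ring
  unfold C2
  rw [hy i l h, mul_zero, add_zero]
  unfold F2
  have h1 : br v ((p : ℤ) - i) * dn (fun i => E2 q v y i l) i = 0 := by
    rcases i with _ | i
    · simp [dn]
    · by_cases hp : i + 1 = p
      · rw [← hp]
        simp [br_zero]
      · simp only [dn]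
        rw [hE i l (by omega), mul_zero]
  have h2 : br v ((q : ℤ) - l) * dn (E2 q v y i) l = 0 := by
    rcases l with _ | l
    · simp [dn]
    · by_cases hp : l + 1 = q
      · rw [← hp]
        simp [br_zero]
      · simp only [dn]
        rw [hE i l (by omega), mul_zero]
  rw [h1, mul_assoc, h2]
  simp

lemma C2_lev {p q : ℤ} {v : ℂ} {y : ℕ → ℕ → ℂ} {i l : ℕ} (hy : ∀ i' l' : ℕ, i' + l' = i + l → y i' l' = 0) :
    C2 p q v y i l = 0 := by
  unfold C2 F2
  rw [hy i l rfl]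
  rcases i with _ | i <;> rcases l with _ | l <;> simp only [dn, E2]
  · simp
  · rw [hy (0 + 1) l (by omega), hy 0 (l + 1) (by omega)]
    simp
  · rw [hy (i + 1) 0 (by omega), hy i (0 + 1) (by omega)]
    simp
  · rw [hy (i + 1) (l + 1) (by omega), hy i (l + 1 + 1) (by omega), hy (i + 1 + 1) l (by omega)]
    simp

/-- the Casimir operators preserve the highest weight vectors in the box -/
theorem Hv_Cs {v : ℂ} (hv : v ≠ 0) (s : Bool) {c : Col} {m : ℕ} {x : Fn} (h : Hv v c m x) :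
    Hv v c m (Cs s c v x) := by
  obtain ⟨hB, hL, hE⟩ := h
  cases s
  · refine ⟨?_, ?_, ?_⟩
    · intro i l k hn
      by_cases hk : k < c.2.2
      · exact C2_out (fun i l h => hB i l k fun h' => h ⟨h'.1, h'.2.1⟩) i l
          fun h => hn ⟨h.1, h.2, hk⟩
      · change C2 c.1 c.2.1 v (fun i l => x i l k) i l = 0
        have : (fun i l => x i l k) = (0 : ℕ → ℕ → ℂ) := by
          funext i l
          exact hB i l k fun h' => hk h'.2.2
        rw [this, C2_zero]
        rfl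
    · intro i l k hn
      exact C2_lev fun i' l' h => hL i' l' k (by omega)
    · funext a j k
      rw [Eg12 hv]
      change v ^ ((c.2.2 : ℤ) - 1 - 2 * k) * E2 c.2.1 v (C2 c.1 c.2.1 v (fun i l => x i l k)) a j +
        br v ((k : ℤ) + 1) * C2 c.1 c.2.1 v (fun i l => x i l (k + 1)) a j = 0
      rw [C2_E2 hv]
      have h0 : v ^ ((c.2.2 : ℤ) - 1 - 2 * k) • E2 c.2.1 v (fun i l => x i l k) +
          br v ((k : ℤ) + 1) • (fun i l => x i l (k + 1)) = (0 : ℕ → ℕ → ℂ) := by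
        funext a j
        have h1 := congrFun (congrFun (congrFun hE a) j) k
        rw [Eg12 hv] at h1
        exact h1
      have h2 := congrArg (fun y => C2 c.1 c.2.1 v y a j) h0
      simp only [C2_add, C2_smul, C2_zero] at h2
      exact h2
  · refine ⟨?_, ?_, ?_⟩
    · intro i l k hn
      by_cases hk : i < c.1
      · exact C2_out (fun l k h => hB i l k fun h' => h ⟨h'.2.1, h'.2.2⟩) l k
          fun h => hn ⟨hk, h.1, h.2⟩
      · change C2 c.2.1 c.2.2 v (x i) l k = 0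
        have : x i = (0 : ℕ → ℕ → ℂ) := by
          funext l k
          exact hB i l k fun h' => hk h'.1
        rw [this, C2_zero]
        rfl
    · intro i l k hn
      exact C2_lev fun l' k' h => hL i l' k' (by omega)
    · funext a j k
      rw [Eg23]
      change v ^ (((c.2.1 : ℤ) - 1) + ((c.2.2 : ℤ) - 1) - 2 * j - 2 * k) * br v ((a : ℤ) + 1) *
        C2 c.2.1 c.2.2 v (x (a + 1)) j k + E2 c.2.2 v (C2 c.2.1 c.2.2 v (x a)) j k = 0
      rw [C2_E2 hv]
      have h0 : (fun j k => (v ^ (((c.2.1 : ℤ) - 1) + ((c.2.2 : ℤ) - 1) - 2 * ((j + k : ℕ) : ℤ)) *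
          br v ((a : ℤ) + 1)) * x (a + 1) j k) + E2 c.2.2 v (x a) = (0 : ℕ → ℕ → ℂ) := by
        funext j k
        have h1 := congrFun (congrFun (congrFun hE a) j) k
        rw [Eg23] at h1
        have e : ((c.2.1 : ℤ) - 1) + ((c.2.2 : ℤ) - 1) - 2 * ((j + k : ℕ) : ℤ) =
          ((c.2.1 : ℤ) - 1) + ((c.2.2 : ℤ) - 1) - 2 * j - 2 * k := by push_cast; ring
        rw [Pi.add_apply, Pi.add_apply, e]
        exact h1
      have h2 := congrArg (fun y => C2 c.2.1 c.2.2 v y j k) h0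
      simp only [C2_add, C2_zero, Pi.add_apply] at h2
      rw [C2_wt (c.2.1 : ℤ) c.2.2 v (fun n => v ^ (((c.2.1 : ℤ) - 1) + ((c.2.2 : ℤ) - 1) -
        2 * (n : ℤ)) * br v ((a : ℤ) + 1)) (x (a + 1)) j k] at h2
      have e : ((c.2.1 : ℤ) - 1) + ((c.2.2 : ℤ) - 1) - 2 * ((j + k : ℕ) : ℤ) =
          ((c.2.1 : ℤ) - 1) + ((c.2.2 : ℤ) - 1) - 2 * j - 2 * k := by push_cast; ring
      simp only [e] at h2
      exact h2

/-! ### Coordinates -/

/-- the coordinates -/
def ph (s : Bool) (m a : ℕ) (x : Fn) : ℂ :=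
  match s with
  | false => x a 0 (m - a)
  | true => x (m - a) 0 a

/-- the colour of the outer strand -/
def po (s : Bool) (c : Col) : ℕ :=
  match s with
  | false => c.1
  | true => c.2.2

/-- exponent of the lower diagonal -/
def ge (s : Bool) (c : Col) (m a : ℤ) : ℤ :=
  match s with
  | false => -((c.2.2 : ℤ) - 1 - 2 * (m - a))
  | true => (c.2.2 : ℤ) + 1 - 2 * a

/-- lower diagonal -/
noncomputable def gam (s : Bool) (c : Col) (v : ℂ) (m a : ℕ) : ℂ :=
  -(v ^ ge s c m a) * br v ((po s c : ℤ) - a) * br v ((m : ℤ) - a + 1)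

lemma ph_add (s : Bool) (m a : ℕ) (x y : Fn) : ph s m a (x + y) = ph s m a x + ph s m a y := by
  cases s <;> rfl

lemma ph_smul (s : Bool) (m a : ℕ) (t : ℂ) (x : Fn) : ph s m a (t • x) = t * ph s m a x := by
  cases s <;> rfl

/-- the Casimir operator in coordinates -/
theorem ph_Cs {v : ℂ} (hv : v ≠ 0) (s : Bool) {c : Col} {m : ℕ} {x : Fn} (h : Hv v c m x) {a : ℕ}
    (ha : a ≤ m) : ph s m a (Cs s c v x) =
      tau ((po s c : ℤ) + c.2.1 - 1) v a * ph s m a x +
        gam s c v m a * dn (fun b => ph s m b x) a := by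
  obtain ⟨hB, hL, hE⟩ := h
  cases s
  · change C2 c.1 c.2.1 v (fun i l => x i l (m - a)) a 0 =
      tau ((c.1 : ℤ) + c.2.1 - 1) v a * x a 0 (m - a) + gam false c v m a * dn (fun b => x b 0 (m - b)) a
    unfold C2 F2
    rcases a with _ | a
    · simp [dn]
    · simp only [dn]
      have h1 := congrFun (congrFun (congrFun hE a) 0) (m - (a + 1))
      rw [Eg12 hv] at h1
      have e1 : m - (a + 1) + 1 = m - a := by omega
      have e2 : ((m - (a + 1) : ℕ) : ℤ) = (m : ℤ) - ((a + 1 : ℕ) : ℤ) := by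
        push_cast [Nat.cast_sub ha]; ring
      rw [e1] at h1
      have h2 : E2 c.2.1 v (fun i l => x i l (m - (a + 1))) a 0 =
          -(v ^ (-((c.2.2 : ℤ) - 1 - 2 * ((m : ℤ) - ((a + 1 : ℕ) : ℤ))))) *
            br v ((m : ℤ) - ((a + 1 : ℕ) : ℤ) + 1) * x a 0 (m - a) := by
        rw [e2] at h1
        have h3 : v ^ (-((c.2.2 : ℤ) - 1 - 2 * ((m : ℤ) - ((a + 1 : ℕ) : ℤ)))) *
          v ^ ((c.2.2 : ℤ) - 1 - 2 * ((m : ℤ) - ((a + 1 : ℕ) : ℤ))) = 1 := by
          rw [← zpow_add₀ hv]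
          simp
        have h4 : (0 : Fn) a 0 (m - (a + 1)) = 0 := rfl
        rw [h4] at h1
        linear_combination v ^ (-((c.2.2 : ℤ) - 1 - 2 * ((m : ℤ) - ((a + 1 : ℕ) : ℤ)))) * h1 -
          E2 c.2.1 v (fun i l => x i l (m - (a + 1))) a 0 * h3
      rw [h2]
      unfold gam ge po
      push_cast
      ring_nf
  · change C2 c.2.1 c.2.2 v (x (m - a)) 0 a =
      tau ((c.2.2 : ℤ) + c.2.1 - 1) v a * x (m - a) 0 a + gam true c v m a * dn (fun b => x (m - b) 0 b) a
    unfold C2 F2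
    rcases a with _ | a
    · simp only [dn]
      have e : ((c.2.1 : ℤ) + c.2.2 - 1) = (c.2.2 : ℤ) + c.2.1 - 1 := by ring
      rw [e]
      simp
    · simp only [dn]
      have h1 := congrFun (congrFun (congrFun hE (m - (a + 1))) 0) a
      rw [Eg23] at h1
      have e1 : m - (a + 1) + 1 = m - a := by omega
      have e2 : ((m - (a + 1) : ℕ) : ℤ) = (m : ℤ) - ((a + 1 : ℕ) : ℤ) := by
        push_cast [Nat.cast_sub ha]; ring
      have h4 : (0 : Fn) (m - (a + 1)) 0 a = 0 := rfl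
      rw [e1, e2, h4] at h1
      have h3 : v ^ (-((c.2.1 : ℤ) - 1 - 2 * ((0 : ℕ) : ℤ))) *
          v ^ (((c.2.1 : ℤ) - 1) + ((c.2.2 : ℤ) - 1) - 2 * ((0 : ℕ) : ℤ) - 2 * a) =
          v ^ ((c.2.2 : ℤ) + 1 - 2 * ((a + 1 : ℕ) : ℤ)) := by
        rw [← zpow_add₀ hv]
        congr 1
        push_cast
        ring
      have e : ((c.2.1 : ℤ) + c.2.2 - 1) = (c.2.2 : ℤ) + c.2.1 - 1 := by ring
      have h5 : (((0 : ℕ) : ℤ) + ((a + 1 : ℕ) : ℤ)) = ((a + 1 : ℕ) : ℤ) := by simp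
      rw [e, h5]
      unfold gam ge po
      simp only
      rw [← h3]
      linear_combination (v ^ (-((c.2.1 : ℤ) - 1 - 2 * ((0 : ℕ) : ℤ))) *
        br v ((c.2.2 : ℤ) - ((a + 1 : ℕ) : ℤ))) * h1

end Pool.Agent.U909.CY
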