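import Pool.Agent.U909.CY.Abs
import Pool.Agent.Y383.CW.FaiNoh

/-!
# Decomposition of the highest weight vectors into channels
-/

set_option autoImplicit false

namespace Pool.Agent.U909.CY

open Finset
open Pool.Agent.H550R3.Jones (br brf)
open Pool.Agent.Y482.CY (sb Nz Fn)
open Pool.Agent.Y482.CW

lemma Eg_add (c : Col) (v : ℂ) (x y : Fn) : Eg c v (x + y) = Eg c v x + Eg c v y := by
  funext a j k
  simp only [Eg, Pi.add_apply]
  ring

lemma Eg_smul (c : Col) (v t : ℂ) (x : Fn) : Eg c v (t • x) = t • Eg c v x := by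
  funext a j k
  simp only [Eg, Pi.smul_apply, smul_eq_mul]
  ring

/-- the highest weight vectors -/
def HvS (v : ℂ) (c : Col) (m : ℕ) : Submodule ℂ Fn where
  carrier := {x | Hv v c m x}
  add_mem' := by
    rintro x y ⟨h1, h2, h3⟩ ⟨k1, k2, k3⟩
    refine ⟨fun i j k h => ?_, fun i j k h => ?_, ?_⟩
    · show x i j k + y i j k = 0
      rw [h1 i j k h, k1 i j k h, add_zero]
    · show x i j k + y i j k = 0
      rw [h2 i j k h, k2 i j k h, add_zero]
    · rw [Eg_add, h3, k3, add_zero]
  zero_mem' := by
    refine ⟨fun i j k _ => rfl, fun i j k _ => rfl, ?_⟩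
    have := Eg_smul c v 0 0
    simpa using this
  smul_mem' := by
    rintro t x ⟨h1, h2, h3⟩
    refine ⟨fun i j k h => ?_, fun i j k h => ?_, ?_⟩
    · show t * x i j k = 0
      rw [h1 i j k h, mul_zero]
    · show t * x i j k = 0
      rw [h2 i j k h, mul_zero]
    · rw [Eg_smul, h3, smul_zero]

/-- the Casimir operator as a linear map -/
noncomputable def CL (s : Bool) (c : Col) (v : ℂ) : Fn →ₗ[ℂ] Fn where
  toFun := Cs s c v
  map_add' := Cs_add s c v
  map_smul' := Cs_smul s c v

/-- a coordinate as a linear map -/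
def phL (s : Bool) (m a : ℕ) : Fn →ₗ[ℂ] ℂ where
  toFun := ph s m a
  map_add' := ph_add s m a
  map_smul' := ph_smul s m a

lemma ph_big {s : Bool} {m a : ℕ} {x : Fn} (h : Lv m x) (ha : m < a) : ph s m a x = 0 := by
  cases s
  · exact h a 0 (m - a) (by omega)
  · exact h (m - a) 0 a (by omega)

lemma ph_box {v : ℂ} {s : Bool} {c : Col} {m a : ℕ} {x : Fn} (h : Hv v c m x) (ha : po s c ≤ a) :
    ph s m a x = 0 := by
  cases s
  · exact h.1 a 0 (m - a) fun h' => absurd h'.1 (by simpa [po] using ha)
  · exact h.1 (m - a) 0 a fun h' => absurd h'.2.2 (by simpa [po] using ha)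

lemma Nn_zero_of {v : ℂ} {s : Bool} {c : Col} {m : ℕ} {x : Fn} (hv : v ≠ 0) (hN : Nz v m)
    (h : Hv v c m x) (h0 : ∀ a ≤ m, ph s m a x = 0) : x = 0 := by
  refine Pool.Agent.Y383.CW.t_FAI v hv c m x hN h.2.1 h.2.2 ?_
  unfold Nn
  refine sum_eq_zero fun i hi => ?_
  have hi' : i ≤ m := by have := mem_range.1 hi; omega
  have : x i 0 (m - i) = 0 := by
    cases s
    · exact h0 i hi'
    · have := h0 (m - i) (by omega)
      unfold ph at this
      simp only at this
      rwa [show m - (m - i) = i by omega] at this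
  rw [this, norm_zero, mul_zero]

/-- the first coordinates determine a highest weight vector -/
theorem faithful {v : ℂ} (hv : v ≠ 0) (s : Bool) {c : Col} {m : ℕ} (hN : Nz v m) {x : Fn}
    (h : Hv v c m x) (h0 : ∀ a < min (po s c) c.2.1, ph s m a x = 0) : x = 0 := by
  obtain ⟨hB, hL, hE⟩ := h
  refine Nn_zero_of (s := s) hv hN ⟨hB, hL, hE⟩ fun a => ?_
  induction a using Nat.strong_induction_on with
  | _ a ih =>
    intro ham
    by_cases ha : a < min (po s c) c.2.1
    · exact h0 a ha
    by_cases hp : po s c ≤ a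
    · exact ph_box ⟨hB, hL, hE⟩ hp
    have hq : c.2.1 ≤ a := by omega
    cases s
    · -- strands one and two
      have hz : ∀ l i k : ℕ, i + l < a → x i l k = 0 := by
        intro l
        induction l with
        | zero =>
          intro i k hi
          by_cases hm : i + 0 + k = m
          · have := ih i (by omega) (by omega)
            unfold ph at this
            simp only at this
            rwa [show m - i = k by omega] at this
          · exact hL i 0 k hm
        | succ l ihl =>
          intro i k hi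
          by_cases hm : i + (l + 1) + k = m
          · have h1 := congrFun (congrFun (congrFun hE i) l) k
            unfold Eg at h1
            rw [ihl (i + 1) k (by omega), ihl i (k + 1) (by omega), mul_zero, mul_zero, zero_add,
              add_zero] at h1
            have h2 := hN (l + 1) (Nat.succ_pos _) (by omega)
            push_cast at h2
            exact (mul_eq_zero.1 h1).resolve_left (mul_ne_zero (zpow_ne_zero _ hv) h2)
          · exact hL i (l + 1) k hm
      have hd : ∀ d l i : ℕ, l + d = c.2.1 → i + l = a → x i l (m - a) = 0 := by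
        intro d
        induction d with
        | zero =>
          intro l i hl hi
          exact hB i l (m - a) fun h' => by have := h'.2.1; omega
        | succ d ihd =>
          intro l i hl hi
          obtain ⟨i, rfl⟩ : ∃ i', i = i' + 1 := ⟨i - 1, by omega⟩
          have h3 := ihd (l + 1) i (by omega) (by omega)
          have h1 := congrFun (congrFun (congrFun hE i) l) (m - a)
          unfold Eg at h1
          rw [h3, hz l i (m - a + 1) (by omega), mul_zero, mul_zero, add_zero, add_zero] at h1
          have h2 := hN (i + 1) (Nat.succ_pos _) (by omega)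
          push_cast at h2
          exact (mul_eq_zero.1 h1).resolve_left (mul_ne_zero (zpow_ne_zero _ hv) h2)
      exact hd c.2.1 0 a (by omega) (by omega)
    · -- strands two and three
      have hz : ∀ l i k : ℕ, l + k < a → x i l k = 0 := by
        intro l
        induction l with
        | zero =>
          intro i k hi
          by_cases hm : i + 0 + k = m
          · have := ih k (by omega) (by omega)
            unfold ph at this
            simp only at this
            rwa [show m - k = i by omega] at this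
          · exact hL i 0 k hm
        | succ l ihl =>
          intro i k hi
          by_cases hm : i + (l + 1) + k = m
          · have h1 := congrFun (congrFun (congrFun hE i) l) k
            unfold Eg at h1
            rw [ihl (i + 1) k (by omega), ihl i (k + 1) (by omega), mul_zero, mul_zero, zero_add,
              add_zero] at h1
            have h2 := hN (l + 1) (Nat.succ_pos _) (by omega)
            push_cast at h2
            exact (mul_eq_zero.1 h1).resolve_left (mul_ne_zero (zpow_ne_zero _ hv) h2)
          · exact hL i (l + 1) k hm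
      have hd : ∀ d l k : ℕ, l + d = c.2.1 → l + k = a → x (m - a) l k = 0 := by
        intro d
        induction d with
        | zero =>
          intro l k hl hk
          exact hB (m - a) l k fun h' => by have := h'.2.1; omega
        | succ d ihd =>
          intro l k hl hk
          obtain ⟨k, rfl⟩ : ∃ k', k = k' + 1 := ⟨k - 1, by omega⟩
          have h3 := ihd (l + 1) k (by omega) (by omega)
          have h1 := congrFun (congrFun (congrFun hE (m - a)) l) k
          unfold Eg at h1
          rw [h3, hz l (m - a + 1) k (by omega), mul_zero, mul_zero, zero_add, zero_add] at h1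
          have h2 := hN (k + 1) (Nat.succ_pos _) (by omega)
          push_cast at h2
          exact (mul_eq_zero.1 h1).resolve_left h2
      exact hd c.2.1 0 a (by omega) (by omega)

/-- highest weight vectors which vanish below `n` -/
def Nb (s : Bool) (v : ℂ) (c : Col) (m n : ℕ) (x : Fn) : Prop :=
  Hv v c m x ∧ ∀ a < n, ph s m a x = 0

lemma tau_ne {v : ℂ} (hv : v ≠ 0) {K p q : ℕ} (hN : Nz v (2 * K)) (hp : p ≤ K) (hq : q ≤ K) {i j : ℕ}
    (hij : i < j) (hi : i < q) (hj : j < p) :
    tau ((p : ℤ) + q - 1) v i - tau ((p : ℤ) + q - 1) v j ≠ 0 := by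
  rw [tau_sub hv]
  obtain ⟨a, ha⟩ : ∃ a : ℕ, (a : ℤ) = (j : ℤ) - i := ⟨j - i, by omega⟩
  obtain ⟨b, hb⟩ : ∃ b : ℕ, (b : ℤ) = (p : ℤ) + q - 1 - i - j := ⟨p + q - 1 - i - j, by omega⟩
  rw [← ha, ← hb]
  exact mul_ne_zero (hN a (by omega) (by omega)) (hN b (by omega) (by omega))

/-- decomposition -/
theorem dec {v : ℂ} (hv : v ≠ 0) (s : Bool) {K : ℕ} (hN : Nz v (2 * K)) {c : Col} (hc : Ok K c)
    {m : ℕ} (hm : m ≤ 2 * K) : ∀ (d n : ℕ), n + d = min (po s c) c.2.1 → ∀ x : Fn,
    Nb s v c m n x → ∃ xs : ℕ → Fn, (∀ j : ℕ, n ≤ j → j < min (po s c) c.2.1 →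
      Nb s v c m j (xs j) ∧ Cs s c v (xs j) = tau ((po s c : ℤ) + c.2.1 - 1) v j • xs j) ∧
      x = ∑ j ∈ Ico n (min (po s c) c.2.1), xs j := by
  have hNm : Nz v m := fun l h1 h2 => hN l h1 (by omega)
  have hpK : po s c ≤ K := by
    cases s
    · exact hc.1
    · exact hc.2.2
  intro d
  induction d with
  | zero =>
    intro n hn x hx
    refine ⟨fun _ => 0, fun j h1 h2 => absurd h1 (by omega), ?_⟩
    rw [show n = min (po s c) c.2.1 by omega, Ico_self, sum_empty]
    exact faithful hv s hNm hx.1 (by rw [← show n = min (po s c) c.2.1 by omega]; exact hx.2)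
  | succ d ih =>
    intro n hn x hx
    have hnJ : n < min (po s c) c.2.1 := by omega
    obtain ⟨T, hT⟩ : ∃ T : ℕ → ℂ, T = fun j : ℕ => tau ((po s c : ℤ) + c.2.1 - 1) v (j : ℤ) := ⟨_, rfl⟩
    have hTe : ∀ j : ℕ, tau ((po s c : ℤ) + c.2.1 - 1) v j = T j := fun j => by rw [hT]
    have hy : Nb s v c m (n + 1) (CL s c v x - T n • x) := by
      refine ⟨(HvS v c m).sub_mem (Hv_Cs hv s hx.1) ((HvS v c m).smul_mem _ hx.1), fun a ha => ?_⟩
      have e : ph s m a (CL s c v x - T n • x) = ph s m a (Cs s c v x) - T n * ph s m a x := by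
        have := (phL s m a).map_sub (CL s c v x) (T n • x)
        rw [map_smul] at this
        exact this
      rw [e]
      by_cases ham : a ≤ m
      · rw [ph_Cs hv s hx.1 ham, hTe]
        have hd : dn (fun b => ph s m b x) a = 0 := by
          rcases a with _ | a
          · rfl
          · exact hx.2 a (by omega)
        rw [hd]
        by_cases han : a = n
        · rw [han]
          ring
        · rw [hx.2 a (by omega)]
          ring
      · rw [ph_big hx.1.2.1 (by omega), ph_big (Hv_Cs hv s hx.1).2.1 (by omega)]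
        ring
    obtain ⟨ys, hys, hysum⟩ := ih (n + 1) (by omega) _ hy
    have hne : ∀ j ∈ Ico (n + 1) (min (po s c) c.2.1), T j - T n ≠ 0 := by
      intro j hj
      rw [mem_Ico] at hj
      have := tau_ne hv hN hpK hc.2.1 (show n < j by omega) (show n < c.2.1 by omega)
        (show j < po s c by omega)
      rw [hTe, hTe] at this
      intro h
      exact this (by linear_combination -h)
    obtain ⟨z, hz⟩ : ∃ z : Fn, z = ∑ j ∈ Ico (n + 1) (min (po s c) c.2.1), (T j - T n)⁻¹ • ys j :=
      ⟨_, rfl⟩
    have hzH : Nb s v c m (n + 1) z := by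
      constructor
      · rw [hz]
        exact (HvS v c m).sum_mem fun j hj => (HvS v c m).smul_mem _
          (hys j (mem_Ico.1 hj).1 (mem_Ico.1 hj).2).1.1
      · intro a ha
        rw [hz]
        have := map_sum (phL s m a) (fun j => (T j - T n)⁻¹ • ys j) (Ico (n + 1) (min (po s c) c.2.1))
        refine this.trans (sum_eq_zero fun j hj => ?_)
        rw [map_smul]
        have h1 : phL s m a (ys j) = 0 :=
          (hys j (mem_Ico.1 hj).1 (mem_Ico.1 hj).2).1.2 a (by have := (mem_Ico.1 hj).1; omega)
        rw [h1, smul_zero]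
    have hCz : CL s c v z - T n • z = CL s c v x - T n • x := by
      rw [hysum, hz, map_sum, smul_sum, ← sum_sub_distrib]
      refine sum_congr rfl fun j hj => ?_
      rw [map_smul]
      have h1 : CL s c v (ys j) = T j • ys j := by
        have := (hys j (mem_Ico.1 hj).1 (mem_Ico.1 hj).2).2
        rw [hTe] at this
        exact this
      rw [h1, smul_smul, smul_smul, ← sub_smul]
      have h2 := hne j hj
      have h3 : (T j - T n)⁻¹ * T j - T n * (T j - T n)⁻¹ = 1 := by
        field_simp
      rw [h3, one_smul]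
    have hxz : CL s c v (x - z) = T n • (x - z) := by
      rw [map_sub, smul_sub]
      have : CL s c v x - CL s c v z - (T n • x - T n • z) = 0 := by
        have h1 : CL s c v x - CL s c v z - (T n • x - T n • z) =
          (CL s c v x - T n • x) - (CL s c v z - T n • z) := by abel
        rw [h1, hCz, sub_self]
      exact sub_eq_zero.1 this
    refine ⟨fun j => if j = n then x - z else (T j - T n)⁻¹ • ys j, fun j h1 h2 => ?_, ?_⟩
    · by_cases hjn : j = n
      · simp only [if_pos hjn]
        refine ⟨⟨(HvS v c m).sub_mem hx.1 hzH.1, fun a ha => ?_⟩, ?_⟩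
        · have e : ph s m a (x - z) = ph s m a x - ph s m a z := (phL s m a).map_sub x z
          rw [e, hx.2 a (by omega), hzH.2 a (by omega), sub_zero]
        · rw [hTe, hjn]
          exact hxz
      · simp only [if_neg hjn]
        obtain ⟨k1, k2⟩ := hys j (by omega) h2
        refine ⟨⟨(HvS v c m).smul_mem _ k1.1, fun a ha => ?_⟩, ?_⟩
        · rw [ph_smul, k1.2 a ha, mul_zero]
        · rw [Cs_smul, k2, smul_comm]
    · rw [sum_eq_sum_Ico_succ_bot hnJ]
      simp only [if_true]
      have : ∑ j ∈ Ico (n + 1) (min (po s c) c.2.1), (if j = n then x - z else (T j - T n)⁻¹ • ys j) =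
          z := by
        rw [hz]
        refine sum_congr rfl fun j hj => ?_
        rw [if_neg (by have := (mem_Ico.1 hj).1; omega)]
      rw [this, sub_add_cancel]

/-- coefficients of the dual vectors -/
noncomputable def el (s : Bool) (c : Col) (v : ℂ) (m j i : ℕ) : ℂ :=
  ∏ b ∈ Ico i j, gam s c v m (b + 1) /
    (tau ((po s c : ℤ) + c.2.1 - 1) v j - tau ((po s c : ℤ) + c.2.1 - 1) v b)

/-- the dual vectors are eigenvectors -/
theorem el_Cs {v : ℂ} (hv : v ≠ 0) (s : Bool) {K : ℕ} (hN : Nz v (2 * K)) {c : Col} (hc : Ok K c)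
    {m j : ℕ} (hjm : j ≤ m) (hj : j < min (po s c) c.2.1) {x : Fn} (hx : Hv v c m x) :
    ∑ i ∈ range (j + 1), el s c v m j i * ph s m i (Cs s c v x) =
      tau ((po s c : ℤ) + c.2.1 - 1) v j * ∑ i ∈ range (j + 1), el s c v m j i * ph s m i x := by
  have hpK : po s c ≤ K := by
    cases s
    · exact hc.1
    · exact hc.2.2
  obtain ⟨T, hT⟩ : ∃ T : ℕ → ℂ, T = fun j : ℕ => tau ((po s c : ℤ) + c.2.1 - 1) v (j : ℤ) := ⟨_, rfl⟩
  have hTe : ∀ j : ℕ, tau ((po s c : ℤ) + c.2.1 - 1) v j = T j := fun j => by rw [hT]
  have h1 : ∀ i ∈ range (j + 1), el s c v m j i * ph s m i (Cs s c v x) =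
      el s c v m j i * (T i * ph s m i x) +
        el s c v m j i * gam s c v m i * dn (fun b => ph s m b x) i := by
    intro i hi
    rw [ph_Cs hv s hx (by have := mem_range.1 hi; omega), hTe]
    ring
  rw [sum_congr rfl h1, sum_add_distrib, hTe]
  have h2 : ∑ i ∈ range (j + 1), el s c v m j i * gam s c v m i * dn (fun b => ph s m b x) i =
      ∑ i ∈ range j, el s c v m j (i + 1) * gam s c v m (i + 1) * ph s m i x := by
    rw [sum_range_succ']
    simp [dn]
  have h3 : ∀ i ∈ range j, el s c v m j (i + 1) * gam s c v m (i + 1) * ph s m i x =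
      el s c v m j i * ((T j - T i) * ph s m i x) := by
    intro i hi
    have hi' := mem_range.1 hi
    have hne : T j - T i ≠ 0 := by
      have := tau_ne hv hN hpK hc.2.1 hi' (show i < c.2.1 by omega) (show j < po s c by omega)
      rw [hTe, hTe] at this
      intro h
      exact this (by linear_combination -h)
    have e : el s c v m j i = gam s c v m (i + 1) / (T j - T i) * el s c v m j (i + 1) := by
      unfold el
      rw [prod_eq_prod_Ico_succ_bot hi', hTe, hTe]
    rw [e]
    field_simp
  rw [h2, sum_congr rfl h3, mul_sum, sum_range_succ, sum_range_succ]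
  have h4 : ∀ i ∈ range j, T j * (el s c v m j i * ph s m i x) =
      el s c v m j i * (T i * ph s m i x) + el s c v m j i * ((T j - T i) * ph s m i x) := by
    intro i _
    ring
  rw [sum_congr rfl h4, sum_add_distrib]
  ring

lemma el_self (s : Bool) (c : Col) (v : ℂ) (m j : ℕ) : el s c v m j j = 1 := by
  unfold el
  rw [Ico_self, prod_empty]

/-- the decomposition with the leading coefficients -/
theorem dec_full {v : ℂ} (hv : v ≠ 0) (s : Bool) {K : ℕ} (hN : Nz v (2 * K)) {c : Col} (hc : Ok K c)
    {m : ℕ} (hm : m ≤ 2 * K) {x : Fn} (hx : Hv v c m x) :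
    ∃ xs : ℕ → Fn, (∀ j < min (po s c) c.2.1, Hv v c m (xs j) ∧
      (j ≤ m → Cj s c v m j (fun a => ph s m a (xs j))) ∧ (m < j → xs j = 0) ∧
      (j ≤ m → ph s m j (xs j) = ∑ i ∈ range (j + 1), el s c v m j i * ph s m i x)) ∧
      x = ∑ j ∈ range (min (po s c) c.2.1), xs j := by
  have hNm : Nz v m := fun l h1 h2 => hN l h1 (by omega)
  have hpK : po s c ≤ K := by
    cases s
    · exact hc.1
    · exact hc.2.2
  obtain ⟨xs, h1, h2⟩ := dec hv s hN hc hm (min (po s c) c.2.1) 0 (by omega) x
    ⟨hx, fun a ha => absurd ha (by omega)⟩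
  rw [← range_eq_Ico] at h2
  refine ⟨xs, fun j hj => ?_, h2⟩
  obtain ⟨⟨k1, k2⟩, k3⟩ := h1 j (by omega) hj
  refine ⟨k1, fun hjm => ⟨fun a ha _ => k2 a ha, fun a ha => ?_⟩, fun hmj => ?_, fun hjm => ?_⟩
  · unfold df
    have h3 := ph_Cs hv s k1 ha
    rw [k3, ph_smul] at h3
    rw [← h3, sub_self]
  · exact Nn_zero_of (s := s) hv hNm k1 fun a ha => k2 a (by omega)
  · -- the functional
    have hlin : ∀ z : Fn, ∑ i ∈ range (j + 1), el s c v m j i * ph s m i z =
        (∑ i ∈ range (j + 1), el s c v m j i • phL s m i) z := by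
      intro z
      rw [LinearMap.sum_apply]
      rfl
    have h4 : ∀ j' < min (po s c) c.2.1, j' ≠ j →
        ∑ i ∈ range (j + 1), el s c v m j i * ph s m i (xs j') = 0 := by
      intro j' hj' hne
      obtain ⟨⟨l1, l2⟩, l3⟩ := h1 j' (by omega) hj'
      have h5 := el_Cs hv s hN hc hjm hj l1
      rw [l3] at h5
      have h6 : ∑ i ∈ range (j + 1), el s c v m j i *
          ph s m i (tau ((po s c : ℤ) + c.2.1 - 1) v j' • xs j') =
          tau ((po s c : ℤ) + c.2.1 - 1) v j' *
            ∑ i ∈ range (j + 1), el s c v m j i * ph s m i (xs j') := by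
        rw [mul_sum]
        refine sum_congr rfl fun i _ => ?_
        rw [ph_smul]
        ring
      rw [h6] at h5
      have h7 : tau ((po s c : ℤ) + c.2.1 - 1) v j' - tau ((po s c : ℤ) + c.2.1 - 1) v j ≠ 0 := by
        rcases lt_or_gt_of_ne hne with h8 | h8
        · exact tau_ne hv hN hpK hc.2.1 h8 (show j' < c.2.1 by omega) (show j < po s c by omega)
        · have := tau_ne hv hN hpK hc.2.1 h8 (show j < c.2.1 by omega) (show j' < po s c by omega)
          intro h
          exact this (by linear_combination -h)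
      have h8 : (tau ((po s c : ℤ) + c.2.1 - 1) v j' - tau ((po s c : ℤ) + c.2.1 - 1) v j) *
          ∑ i ∈ range (j + 1), el s c v m j i * ph s m i (xs j') = 0 := by
        linear_combination h5
      exact (mul_eq_zero.1 h8).resolve_left h7
    have h9 : ∑ i ∈ range (j + 1), el s c v m j i * ph s m i (xs j) = ph s m j (xs j) := by
      rw [sum_range_succ, el_self, one_mul]
      have : ∑ i ∈ range j, el s c v m j i * ph s m i (xs j) = 0 :=
        sum_eq_zero fun i hi => by rw [k2 i (mem_range.1 hi), mul_zero]
      rw [this, zero_add]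
    rw [← h9]
    conv_rhs => rw [h2]
    rw [hlin, hlin, map_sum]
    symm
    refine sum_eq_single j (fun j' hj' hne => ?_) fun hn => absurd (mem_range.2 hj) hn
    rw [← hlin]
    exact h4 j' (mem_range.1 hj') hne

end Pool.Agent.U909.CY
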