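import Pool.Agent.U909.CY.Dec
import Pool.Agent.Y528.CW.Box
import Pool.Agent.Y858.CW.Ecp
import Pool.Agent.Y907.CW.ECN
import Pool.Agent.Y948.CW.CO
import Pool.Agent.Y185.CW.IV
import Pool.Agent.Y547.CW.Eig

/-!
# Evolution of the channels under powers of a letter
-/

set_option autoImplicit false

namespace Pool.Agent.U909.CY

open Finset
open Pool.Agent.H550R3.Jones (br brf)
open Pool.Agent.Y482.CY (sb Nz Fn)
open Pool.Agent.Y482.CW

lemma sb_symm (v : ℂ) {n k : ℕ} (h : k ≤ n) : sb v n (n - k) = sb v n k := by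
  unfold sb
  rw [show n - (n - k) = k by omega, mul_comm (brf v (n - k))]

/-- the letter `(s, s)` in coordinates -/
theorem ph_letter {v : ℂ} (hv : v ≠ 0) (s : Bool) {c : Col} {m : ℕ} (hN : Nz v m) {x : Fn}
    (hE : Eg c v x = 0) {a : ℕ} (ha : a ≤ m) :
    ph s m a (FL (s, s) c v x) = ∑ i ∈ range (m + 1), TL s c v m a i * ph s m i x := by
  cases s
  · have h := Pool.Agent.Y948.CW.col v hv c m x hN (fun a j k _ => by rw [hE]; rfl) ⟨a, by omega⟩
    rw [Finset.sum_range]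
    exact h
  · have h := Pool.Agent.Y948.CW.cou v hv c m x hN (fun a j k _ => by rw [hE]; rfl) ⟨m - a, by omega⟩
    have e1 : FL (true, true) c v x (m - a) 0 (m - (m - a)) =
        ph true m a (FL (true, true) c v x) := by
      unfold ph
      simp only
      rw [show m - (m - a) = a by omega]
    rw [← e1]
    refine h.trans ?_
    have e2 := Finset.sum_range_reflect (fun i => (if m - a ≤ i then (-1) ^ (m - (m - a)) *
      v ^ (-(2 * ((c.2.2 : ℤ) - 1) * ((m : ℤ) - ((m - a : ℕ) : ℤ))) +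
        ((c.2.1 : ℤ) + c.2.2 - 2) * ((i : ℤ) - ((m - a : ℕ) : ℤ)) -
        ((i : ℤ) - ((m - a : ℕ) : ℤ)) * ((m : ℤ) - ((m - a : ℕ) : ℤ) - 1) +
        ((m : ℤ) - i) * ((m : ℤ) - i - 1)) * sb v i (m - a) else 0) * x i 0 (m - i)) (m + 1)
    rw [Finset.sum_range (n := m + 1) (fun i => (if m - a ≤ i then (-1) ^ (m - (m - a)) *
      v ^ (-(2 * ((c.2.2 : ℤ) - 1) * ((m : ℤ) - ((m - a : ℕ) : ℤ))) +
        ((c.2.1 : ℤ) + c.2.2 - 2) * ((i : ℤ) - ((m - a : ℕ) : ℤ)) -
        ((i : ℤ) - ((m - a : ℕ) : ℤ)) * ((m : ℤ) - ((m - a : ℕ) : ℤ) - 1) +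
        ((m : ℤ) - i) * ((m : ℤ) - i - 1)) * sb v i (m - a) else 0) * x i 0 (m - i))] at e2
    refine e2.symm.trans ?_
    refine sum_congr rfl fun i hi => ?_
    have hi' : i ≤ m := by have := mem_range.1 hi; omega
    have f1 : m + 1 - 1 - i = m - i := by omega
    rw [f1]
    unfold TL ph
    simp only
    rw [show m - (m - i) = i by omega, show m - (m - a) = a by omega]
    by_cases hia : i ≤ a
    · rw [if_pos hia, if_pos (show m - a ≤ m - i by omega)]
      have e3 : sb v (m - i) (m - a) = sb v (m - i) (a - i) := by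
        rw [← sb_symm v (show a - i ≤ m - i by omega)]
        congr 1
        omega
      have c1 : ((m - a : ℕ) : ℤ) = (m : ℤ) - a := by push_cast [Nat.cast_sub ha]; ring
      have c2 : ((m - i : ℕ) : ℤ) = (m : ℤ) - i := by push_cast [Nat.cast_sub hi']; ring
      rw [e3, c1, c2]
      congr 4
      unfold ep
      simp only
      ring
    · rw [if_neg hia, if_neg (show ¬ m - a ≤ m - i by omega)]

lemma Hv_FL {v : ℂ} (hv : v ≠ 0) {K : ℕ} (hN : Nz v (2 * K)) (l : Letter) {c : Col} (hc : Ok K c)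
    {m : ℕ} {x : Fn} (h : Hv v c m x) : Hv v (sw l c) m (FL l c v x) := by
  obtain ⟨h2, h3, h4⟩ := h
  refine ⟨Pool.Agent.Y528.CW.t_BOX.1 v l c x h2, Pool.Agent.Y528.CW.t_BOX.2.1 v l c m x h3, ?_⟩
  rw [Pool.Agent.Y547.CW.comm_letter Pool.Agent.Y528.CW.t_BOX Pool.Agent.Y858.CW.ecp
    Pool.Agent.Y907.CW.t_ECN hv hN l c hc x h2, h4, Pool.Agent.Y547.CW.FL_zero]

/-- one letter -/
theorem ev_letter {v : ℂ} (hv : v ≠ 0) (hv1 : ‖v‖ = 1) {K : ℕ} (hN : Nz v (2 * K)) (s t : Bool)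
    {c : Col} (hc : Ok K c) {m : ℕ} (hm : m ≤ 2 * K) {j : ℕ} (hj : j ≤ m) {x : Fn}
    (h : Hv v c m x) (hx : Cj s c v m j (fun a => ph s m a x)) :
    Cj s (sw (s, t) c) v m j (fun a => ph s m a (FL (s, t) c v x)) ∧
      ‖ph s m j (FL (s, t) c v x)‖ = ‖ph s m j x‖ := by
  have hNm : Nz v m := fun l h1 h2 => hN l h1 (by omega)
  by_cases hst : t = s
  · subst hst
    exact Cj_fwd hv hv1 t t c hNm hj _ _ (fun a ha => ph_letter hv t hNm h.2.2 ha) hx
  · have ht : t = !s := by cases s <;> cases t <;> simp_all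
    subst ht
    have hiv := Pool.Agent.Y185.CW.iv v hv K hN s (!s) c x hc h.1
    rw [Bool.not_not] at hiv
    have h2 := Hv_FL hv hN (s, !s) hc h
    have hsw : sw (s, s) (sw (s, !s) c) = c := by cases s <;> rfl
    have h3 := Cj_bwd hv hv1 s s (sw (s, !s) c) hNm hj (fun a => ph s m a (FL (s, !s) c v x))
      (fun a => ph s m a x) (fun a ha => by
        have h4 := ph_letter hv s hNm h2.2.2 ha
        rw [hiv] at h4
        exact h4) (by rw [hsw]; exact hx)
    exact h3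

/-- powers of a letter -/
theorem ev_word {v : ℂ} (hv : v ≠ 0) (hv1 : ‖v‖ = 1) {K : ℕ} (hN : Nz v (2 * K)) (s t : Bool)
    {m : ℕ} (hm : m ≤ 2 * K) {j : ℕ} (hj : j ≤ m) : ∀ (e : ℕ) {c : Col}, Ok K c → ∀ {x : Fn},
    Hv v c m x → Cj s c v m j (fun a => ph s m a x) →
    Hv v (swW (List.replicate e (s, t)) c) m (FW (List.replicate e (s, t)) c v x) ∧
    Cj s (swW (List.replicate e (s, t)) c) v m j
      (fun a => ph s m a (FW (List.replicate e (s, t)) c v x)) ∧
      ‖ph s m j (FW (List.replicate e (s, t)) c v x)‖ = ‖ph s m j x‖ := by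
  intro e
  induction e with
  | zero =>
    intro c hc x h hx
    exact ⟨h, hx, rfl⟩
  | succ e ih =>
    intro c hc x h hx
    obtain ⟨h1, h2⟩ := ev_letter hv hv1 hN s t hc hm hj h hx
    obtain ⟨k1, k2, k3⟩ := ih (c := sw (s, t) c) (Pool.Agent.Y547.CW.Ok_sw (s, t) hc)
      (x := FL (s, t) c v x) (Hv_FL hv hN (s, t) hc h) h1
    exact ⟨k1, k2, k3.trans h2⟩

lemma swW_even (s t : Bool) : ∀ (n : ℕ) (c : Col), swW (List.replicate (2 * n) (s, t)) c = c := by
  intro n
  induction n with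
  | zero => exact fun c => rfl
  | succ n ih =>
    intro c
    rw [show 2 * (n + 1) = 2 * n + 1 + 1 by ring, List.replicate_succ, List.replicate_succ]
    change swW (List.replicate (2 * n) (s, t)) (sw (s, t) (sw (s, t) c)) = c
    have : sw (s, t) (sw (s, t) c) = c := by cases s <;> rfl
    rw [this, ih]

/-- ratios of the coordinates of a channel -/
noncomputable def rr (s : Bool) (c : Col) (v : ℂ) (m j a : ℕ) : ℝ :=
  ∏ b ∈ Ico j a, ‖gam s c v m (b + 1)‖ /
    ‖tau ((po s c : ℤ) + c.2.1 - 1) v j - tau ((po s c : ℤ) + c.2.1 - 1) v ((b + 1 : ℕ) : ℤ)‖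

/-- the coordinates of a channel -/
theorem Cj_coord {v : ℂ} (hv : v ≠ 0) {K : ℕ} (hN : Nz v (2 * K)) (s : Bool) {c : Col} (hc : Ok K c)
    {m j : ℕ} (hj : j < c.2.1) {f : ℕ → ℂ} (hf : Cj s c v m j f) :
    ∀ a : ℕ, j ≤ a → a < po s c → a ≤ m → ‖f a‖ = ‖f j‖ * rr s c v m j a := by
  have hpK : po s c ≤ K := by
    cases s
    · exact hc.1
    · exact hc.2.2
  intro a hja
  induction a, hja using Nat.le_induction with
  | base =>
    intro _ _
    unfold rr
    rw [Ico_self, prod_empty, mul_one]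
  | succ a hja ih =>
    intro hap ham
    have h1 := hf.2 (a + 1) ham
    unfold df at h1
    simp only [dn] at h1
    have hne := tau_ne hv hN hpK hc.2.1 (show j < a + 1 by omega) hj hap
    have h2 : f (a + 1) = gam s c v m (a + 1) * f a /
        (tau ((po s c : ℤ) + c.2.1 - 1) v j - tau ((po s c : ℤ) + c.2.1 - 1) v ((a + 1 : ℕ) : ℤ)) := by
      rw [eq_div_iff hne]
      linear_combination -h1
    rw [h2, norm_div, norm_mul, ih (by omega) (by omega)]
    unfold rr
    rw [prod_Ico_succ_top hja]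
    ring

end Pool.Agent.U909.CY
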